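import Mathlib

/-! Steiner systems: definition, divisibility conditions, Tits' inequality. -/

namespace Pool.Agent.SteinerTits

/-- `B` is the block set of a Steiner system `S(n,q,r)` on the point set `Fin n`: every block has
`q` elements and every `r`-set of points lies in exactly one block. -/
def IsSteiner {n : ℕ} (q r : ℕ) (B : Finset (Finset (Fin n))) : Prop :=
  (∀ b ∈ B, b.card = q) ∧ ∀ T : Finset (Fin n), T.card = r → ∃! b, b ∈ B ∧ T ⊆ b

theorem card_between {α : Type*} [DecidableEq α] (A I : Finset α) (hI : I ⊆ A) (r : ℕ)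
    (hr : I.card ≤ r) :
    ((A.powersetCard r).filter (fun T => I ⊆ T)).card = (A.card - I.card).choose (r - I.card) := by
  have h1 : (A \ I).card = A.card - I.card := Finset.card_sdiff_of_subset hI
  rw [← h1, ← Finset.card_powersetCard]
  apply Finset.card_bij' (fun T _ => T \ I) (fun S _ => S ∪ I)
  · intro T hT
    simp only [Finset.mem_filter, Finset.mem_powersetCard] at hT
    simp only [Finset.mem_powersetCard]
    refine ⟨Finset.sdiff_subset_sdiff hT.1.1 (Finset.Subset.refl _), ?_⟩
    rw [Finset.card_sdiff_of_subset hT.2, hT.1.2]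
  · intro S hS
    simp only [Finset.mem_powersetCard] at hS
    simp only [Finset.mem_filter, Finset.mem_powersetCard]
    have hd : Disjoint S I := by
      rw [Finset.disjoint_left]
      intro x hx hxI
      exact (Finset.mem_sdiff.1 (hS.1 hx)).2 hxI
    refine ⟨⟨Finset.union_subset (hS.1.trans Finset.sdiff_subset) hI, ?_⟩,
      Finset.subset_union_right⟩
    rw [Finset.card_union_of_disjoint hd, hS.2]
    omega
  · intro T hT
    simp only [Finset.mem_filter] at hT
    exact Finset.sdiff_union_of_subset hT.2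
  · intro S hS
    simp only [Finset.mem_powersetCard] at hS
    have hd : Disjoint S I := by
      rw [Finset.disjoint_left]
      intro x hx hxI
      exact (Finset.mem_sdiff.1 (hS.1 hx)).2 hxI
    rw [Finset.union_sdiff_right]
    exact Finset.sdiff_eq_self_of_disjoint hd

/-- The divisibility condition (D). -/
theorem IsSteiner.dvd {n q r : ℕ} {B : Finset (Finset (Fin n))} (h : IsSteiner q r B)
    {i : ℕ} (hi : i ≤ r) (hin : i ≤ n) :
    (q - i).choose (r - i) ∣ (n - i).choose (r - i) := by
  classical
  obtain ⟨I, -, hI⟩ := Finset.exists_subset_card_eq (s := (Finset.univ : Finset (Fin n)))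
    (n := i) (by simpa using hin)
  have hcard : ((Finset.univ.powersetCard r).filter (fun T => I ⊆ T)).card
      = (n - i).choose (r - i) := by
    have := card_between (Finset.univ : Finset (Fin n)) I (Finset.subset_univ _) r (by omega)
    simpa [hI] using this
  have hunion : (Finset.univ.powersetCard r).filter (fun T => I ⊆ T)
      = (B.filter (fun b => I ⊆ b)).biUnion
        (fun b => (b.powersetCard r).filter (fun T => I ⊆ T)) := by
    ext T
    simp only [Finset.mem_filter, Finset.mem_powersetCard, Finset.mem_biUnion]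
    constructor
    · rintro ⟨⟨-, hT⟩, hIT⟩
      obtain ⟨b, ⟨hb, hTb⟩, -⟩ := h.2 T hT
      exact ⟨b, ⟨hb, hIT.trans hTb⟩, ⟨hTb, hT⟩, hIT⟩
    · rintro ⟨b, -, ⟨-, hT⟩, hIT⟩
      exact ⟨⟨Finset.subset_univ _, hT⟩, hIT⟩
  rw [← hcard, hunion, Finset.card_biUnion]
  · apply Finset.dvd_sum
    intro b hb
    simp only [Finset.mem_filter] at hb
    rw [card_between b I hb.2 r (by omega), h.1 b hb.1, hI]
  · intro b hb c hc hbc
    simp only [Finset.coe_filter, Set.mem_ofPred_eq, Finset.mem_filter] at hb hc
    rw [Function.onFun, Finset.disjoint_left]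
    intro T hTb hTc
    simp only [Finset.mem_filter, Finset.mem_powersetCard] at hTb hTc
    exact hbc ((h.2 T hTb.1.2).unique ⟨hb.1, hTb.1.1⟩ ⟨hc.1, hTc.1.1⟩)

/-- Tits' inequality. -/
theorem IsSteiner.tits {n q r : ℕ} {B : Finset (Finset (Fin n))} (h : IsSteiner q r B)
    (hr : 1 ≤ r) (hrq : r ≤ q) (hqn : q < n) : (r + 1) * (q - r + 1) ≤ n := by
  classical
  -- a block
  obtain ⟨R0, -, hR0⟩ := Finset.exists_subset_card_eq (s := (Finset.univ : Finset (Fin n)))
    (n := r) (by simp; omega)
  obtain ⟨b, ⟨hb, hRb⟩, hbu⟩ := h.2 R0 hR0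
  have hbcard := h.1 b hb
  obtain ⟨x, hx⟩ : ∃ x, x ∉ b := by
    by_contra hcon
    push Not at hcon
    have : b = Finset.univ := Finset.eq_univ_iff_forall.2 hcon
    rw [this] at hbcard
    simp at hbcard
    omega
  set T := insert x R0 with hTdef
  have hxR : x ∉ R0 := fun hh => hx (hRb hh)
  have hT : T.card = r + 1 := by rw [hTdef, Finset.card_insert_of_notMem hxR, hR0]
  have hTn : ∀ c ∈ B, ¬ T ⊆ c := by
    intro c hc hTc
    have : c = b := hbu c ⟨hc, (Finset.subset_insert _ _).trans hTc⟩
    subst this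
    exact hx (hTc (Finset.mem_insert_self _ _))
  have hex : ∀ y ∈ T, ∃ c, c ∈ B ∧ T.erase y ⊆ c := by
    intro y hy
    obtain ⟨c, hc, -⟩ := h.2 (T.erase y) (by rw [Finset.card_erase_of_mem hy, hT]; omega)
    exact ⟨c, hc⟩
  choose! f hfB hfT using hex
  have hyf : ∀ y ∈ T, y ∉ f y := by
    intro y hy hyy
    apply hTn (f y) (hfB y hy)
    intro z hz
    by_cases hzy : z = y
    · rw [hzy]; exact hyy
    · exact hfT y hy (Finset.mem_erase.2 ⟨hzy, hz⟩)
  -- the sets f y \ T are pairwise disjoint, disjoint from T, of size q - r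
  have hsz : ∀ y ∈ T, (f y \ T).card = q - r := by
    intro y hy
    have : f y \ T = f y \ T.erase y := by
      ext z
      simp only [Finset.mem_sdiff, Finset.mem_erase, ne_eq, not_and]
      constructor
      · rintro ⟨h1, h2⟩
        exact ⟨h1, fun _ => h2⟩
      · rintro ⟨h1, h2⟩
        refine ⟨h1, ?_⟩
        apply h2
        rintro rfl
        exact hyf z hy h1
    rw [this, Finset.card_sdiff_of_subset (hfT y hy), h.1 _ (hfB y hy),
      Finset.card_erase_of_mem hy, hT]
    omega
  have hdisj : ∀ y ∈ T, ∀ z ∈ T, y ≠ z → Disjoint (f y \ T) (f z \ T) := by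
    intro y hy z hz hyz
    rw [Finset.disjoint_left]
    intro w hwy hwz
    simp only [Finset.mem_sdiff] at hwy hwz
    -- the r-set (T minus y, z) plus w
    set R := insert w ((T.erase y).erase z) with hR
    have hzy : z ∈ T.erase y := Finset.mem_erase.2 ⟨hyz.symm, hz⟩
    have hwR : w ∉ (T.erase y).erase z := fun hh =>
      hwy.2 (Finset.mem_of_mem_erase (Finset.mem_of_mem_erase hh))
    have hRc : R.card = r := by
      rw [hR, Finset.card_insert_of_notMem hwR, Finset.card_erase_of_mem hzy,
        Finset.card_erase_of_mem hy, hT]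
      omega
    have h1 : R ⊆ f y := by
      rw [hR]
      intro v hv
      rcases Finset.mem_insert.1 hv with rfl | hv
      · exact hwy.1
      · exact hfT y hy (Finset.mem_of_mem_erase hv)
    have h2 : R ⊆ f z := by
      rw [hR]
      intro v hv
      rcases Finset.mem_insert.1 hv with rfl | hv
      · exact hwz.1
      · apply hfT z hz
        rw [Finset.mem_erase] at hv ⊢
        exact ⟨hv.1, Finset.mem_of_mem_erase hv.2⟩
    have heq : f y = f z := (h.2 R hRc).unique ⟨hfB y hy, h1⟩ ⟨hfB z hz, h2⟩
    apply hyf y hy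
    rw [heq]
    exact hfT z hz (Finset.mem_erase.2 ⟨hyz, hy⟩)
  have hTd : Disjoint T (T.biUnion (fun y => f y \ T)) := by
    rw [Finset.disjoint_left]
    intro w hw hw2
    simp only [Finset.mem_biUnion, Finset.mem_sdiff] at hw2
    obtain ⟨y, -, -, h2⟩ := hw2
    exact h2 hw
  have hbig : (T ∪ T.biUnion (fun y => f y \ T)).card = (r + 1) + (r + 1) * (q - r) := by
    rw [Finset.card_union_of_disjoint hTd, Finset.card_biUnion
      (fun y hy z hz hyz => hdisj y hy z hz hyz), Finset.sum_congr rfl hsz, Finset.sum_const, hT,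
      smul_eq_mul]
  have hle : (T ∪ T.biUnion (fun y => f y \ T)).card ≤ n := by
    have := Finset.card_le_univ (T ∪ T.biUnion (fun y => f y \ T))
    simpa using this
  calc (r + 1) * (q - r + 1) = (r + 1) + (r + 1) * (q - r) := by ring
    _ ≤ n := by rw [← hbig]; exact hle

end Pool.Agent.SteinerTits
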