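import Mathlib

/-! Consequence of the divisibility conditions of a Steiner system, via Kummer's theorem. -/

namespace Pool.Agent.SteinerTits

theorem exists_sub_eq {a Q : ℕ} (h : a < Q) : ∃ j, 1 ≤ j ∧ j + a = Q :=
  ⟨Q - a, by omega, by omega⟩

open Finset in
/-- If `C(M+j,j)` divides `C(N+j,j)` for all `1 ≤ j ≤ t`, then `M mod p^i ≤ N mod p^i` for every
prime power `p^i ≤ t + (M mod p^i)`. -/
theorem star {M N t : ℕ}
    (hD : ∀ j, 1 ≤ j → j ≤ t → (M + j).choose j ∣ (N + j).choose j)
    {p i : ℕ} (hp : p.Prime) (hle : p ^ i ≤ t + M % p ^ i) : M % p ^ i ≤ N % p ^ i := by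
  by_contra hlt
  push Not at hlt
  have hppos : ∀ l, 0 < p ^ l := fun l => pow_pos hp.pos l
  have haq : M % p ^ i < p ^ i := Nat.mod_lt _ (hppos i)
  obtain ⟨j, hj1, hsum⟩ := exists_sub_eq haq
  have hjt : j ≤ t := by linarith
  have ha0 : 0 < M % p ^ i := lt_of_le_of_lt (Nat.zero_le _) hlt
  have hjlt : j < p ^ i := by linarith
  have hi0 : 1 ≤ i := by
    rcases Nat.eq_zero_or_pos i with h | h
    · subst h
      simp [Nat.mod_one] at hlt
    · exact h
  obtain ⟨b, hb1, hb2, hbi⟩ : ∃ b, Nat.log p (M + j) < b ∧ Nat.log p (N + j) < b ∧ i < b :=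
    ⟨Nat.log p (M + j) + Nat.log p (N + j) + i + 1, by omega, by omega, by omega⟩
  have h1 := Nat.factorization_choose' hp hb1
  have h2 := Nat.factorization_choose' hp hb2
  have hdvd := hD j hj1 hjt
  have hle2 : ((M + j).choose j).factorization p ≤ ((N + j).choose j).factorization p :=
    Nat.factorization_le_factorization_of_dvd_right hdvd
      (Nat.choose_pos (by omega)).ne' (Nat.choose_pos (by omega)).ne'
  rw [h1, h2] at hle2
  have hMj : p ^ i ∣ M + j := by
    have h3 : (M + j) % p ^ i = 0 := by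
      rw [Nat.add_mod, Nat.mod_eq_of_lt hjlt, add_comm, hsum, Nat.mod_self]
    exact Nat.dvd_of_mod_eq_zero h3
  have hss : {l ∈ Ico 1 b | p ^ l ≤ j % p ^ l + N % p ^ l}
      ⊂ {l ∈ Ico 1 b | p ^ l ≤ j % p ^ l + M % p ^ l} := by
    rw [Finset.ssubset_iff_of_subset]
    · refine ⟨i, ?_, ?_⟩
      · simp only [Finset.mem_filter, Finset.mem_Ico]
        refine ⟨⟨hi0, hbi⟩, ?_⟩
        rw [Nat.mod_eq_of_lt hjlt]
        exact hsum.ge
      · simp only [Finset.mem_filter, Finset.mem_Ico, not_and, not_le]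
        intro _
        rw [Nat.mod_eq_of_lt hjlt]
        linarith
    · intro l hl
      simp only [Finset.mem_filter, Finset.mem_Ico] at hl ⊢
      refine ⟨hl.1, ?_⟩
      rcases lt_or_ge l i with hli | hli
      · -- l < i
        have hdl : p ^ l ∣ M + j := (pow_dvd_pow p hli.le).trans hMj
        have hNl : N % p ^ l < p ^ l := Nat.mod_lt _ (hppos l)
        have hjl : 0 < j % p ^ l := by
          by_contra hcon
          have h0 : j % p ^ l = 0 := by omega
          rw [h0, Nat.zero_add] at hl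
          exact absurd hl.2 (not_le.2 hNl)
        have h4 : (j % p ^ l + M % p ^ l) % p ^ l = 0 := by
          rw [← Nat.add_mod, Nat.add_comm]
          exact Nat.mod_eq_zero_of_dvd hdl
        have h5 := Nat.dvd_of_mod_eq_zero h4
        exact Nat.le_of_dvd (by positivity) h5
      · -- i ≤ l
        exfalso
        have hpl : p ^ i ≤ p ^ l := Nat.pow_le_pow_right hp.pos hli
        have hjm : j % p ^ l = j := Nat.mod_eq_of_lt (lt_of_lt_of_le hjlt hpl)
        rw [hjm] at hl
        have h6 : N % p ^ l % p ^ i = N % p ^ i := Nat.mod_mod_of_dvd N (pow_dvd_pow p hli)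
        have h7 := Nat.div_add_mod (N % p ^ l) (p ^ i)
        rw [h6] at h7
        have h8 : N % p ^ l / p ^ i < p ^ l / p ^ i := by
          apply Nat.div_lt_div_of_lt_of_dvd (pow_dvd_pow p hli)
          exact Nat.mod_lt _ (hppos l)
        have h9 : p ^ i * (p ^ l / p ^ i) = p ^ l := Nat.mul_div_cancel' (pow_dvd_pow p hli)
        have h10 : p ^ i * (N % p ^ l / p ^ i + 1) ≤ p ^ i * (p ^ l / p ^ i) :=
          Nat.mul_le_mul_left _ h8
        rw [h9, Nat.mul_add, Nat.mul_one] at h10
        have h11 := hl.2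
        linarith
  exact absurd (Finset.card_lt_card hss) (not_lt.2 hle2)

end Pool.Agent.SteinerTits
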