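import Mathlib
import Pool.Agent.SteinerTits.Star

/-! Finite checks (kernel computations) for the bound `n ≥ q(q-r+1)`. -/

namespace Pool.Agent.SteinerTits

/-- Search for a power `Q` of `p` with `Q ≤ r + M % Q` and `N % Q < M % Q`. -/
def witp (M N r p : ℕ) : ℕ → ℕ → Bool
  | 0, _ => false
  | fuel + 1, Q => (Nat.ble Q (r + M % Q) && Nat.blt (N % Q) (M % Q)) ||
      (Nat.ble Q (r + M) && witp M N r p fuel (Q * p))

theorem exists_of_witp {M N r p : ℕ} : ∀ (fuel e : ℕ), witp M N r p fuel (p ^ e) = true →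
    ∃ i, p ^ i ≤ r + M % p ^ i ∧ N % p ^ i < M % p ^ i := by
  intro fuel
  induction fuel with
  | zero => intro e h; simp [witp] at h
  | succ fuel ih =>
    intro e h
    simp only [witp, Bool.or_eq_true, Bool.and_eq_true, Nat.ble_eq, Nat.blt_eq] at h
    rcases h with h | h
    · exact ⟨e, h.1, h.2⟩
    · apply ih (e + 1)
      rw [pow_succ]
      exact h.2

/-- The primes used. -/
def primesList : List ℕ := [2, 3, 5, 7, 11, 13, 17, 19, 23, 29, 31, 37, 41, 43, 47]

theorem prime_of_mem {p : ℕ} (h : p ∈ primesList) : p.Prime := by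
  revert p
  decide

/-- Search over all primes of the list. -/
def wit (M N r : ℕ) : Bool := primesList.any (fun p => witp M N r p 24 p)

theorem false_of_wit {M N t r : ℕ}
    (hD : ∀ j, 1 ≤ j → j ≤ t → (M + j).choose j ∣ (N + j).choose j) (hrt : r ≤ t)
    (h : wit M N r = true) : False := by
  rw [wit, List.any_eq_true] at h
  obtain ⟨p, hp, hw⟩ := h
  have hpp := prime_of_mem hp
  obtain ⟨i, h1, h2⟩ := exists_of_witp 24 1 (by rw [pow_one]; exact hw)
  have := star hD hpp (i := i) (by omega)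
  omega

/-- The list of divisors. -/
def divs (x : ℕ) : List ℕ := (List.range (x + 1)).filter (fun u => Nat.beq (x % u) 0)

theorem mem_divs {x u : ℕ} (hx : 0 < x) (h : u ∣ x) : u ∈ divs x := by
  rw [divs, List.mem_filter, List.mem_range]
  refine ⟨Nat.lt_succ_of_le (Nat.le_of_dvd hx h), ?_⟩
  rw [Nat.beq_eq]
  exact Nat.mod_eq_zero_of_dvd h

/-- The check for `a` in the range `r ≤ R`, `M > 30`. -/
def checkA1 (R a : ℕ) : Bool :=
  (divs (a - 2)).all (fun u => (divs (a - 3)).all (fun v =>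
    Nat.ble (u * v - 2) 30 || Nat.blt R (a + (a - 1) / (u * v - 2) + 1) ||
      wit (u * v - 2) ((u * v - 2 + 1) * (u * v - 2 + a) - 1)
        (a + (a - 1) / (u * v - 2) + 1)))

/-- The check for all `a` with `4 ≤ a < R`. -/
def checkA (R : ℕ) : Bool := (List.range R).all (fun a => Nat.blt a 4 || checkA1 R a)

/-- The check for `M ≤ 30`, `r < M(M-1)`. -/
def checkB : Bool :=
  (List.range 31).all (fun M => Nat.blt M 2 ||
    (List.range (M * (M - 1))).all (fun a => Nat.blt a 4 || (Nat.beq M 9 && Nat.beq a 13) ||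
      wit M ((M + 1) * (M + a) - 1) (a + (a - 1) / M + 1)))

/-- The check for one `k` in the case `M ≤ 30`, `r ≥ M(M-1)`. -/
def checkC1 (M d c k : ℕ) : Bool :=
  Nat.beq k 0 || !(Nat.beq (c % k) 0) || !(Nat.beq ((c / k) % (M + 1)) ((d + 1) % (M + 1))) ||
    Nat.ble (c / k) (M * (M - 1)) || wit M (M * (c / k) + d) (max 3 (c / k - M))

/-- The check for one pair `M`, `d` in the case `M ≤ 30`, `r ≥ M(M-1)`. -/
def checkC2 (M d c : ℕ) : Bool :=
  (List.range (M + 1)).all (fun ρ => !(Nat.beq ((ρ * (d + 1)) % (M + 1)) (c % (M + 1))) ||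
    (List.range (c / (M * (M - 1) + 1) / (M + 1) + 1)).all (fun i =>
      checkC1 M d c (ρ + (M + 1) * i)))

/-- The check for `M ≤ 30`, `r ≥ M(M-1)`. -/
def checkC : Bool :=
  (List.range 31).all (fun M => Nat.blt M 2 ||
    (List.range M).all (fun d => checkC2 M d ((M - 1).descFactorial d / d.factorial)))

set_option maxRecDepth 100000

theorem checkA_true : checkA 300 = true := by decide +kernel

theorem checkB_true : checkB = true := by decide +kernel

theorem checkC_true : checkC = true := by decide +kernel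

/-- `4 ≤ a < 300`, `M > 30`, `M + 2 ∣ (a-2)(a-3)`. -/
theorem wit_of_A {M a : ℕ} (ha : 4 ≤ a) (haR : a < 300) (hM : 30 < M)
    (hdvd : M + 2 ∣ (a - 2) * (a - 3)) (hr : a + (a - 1) / M + 1 ≤ 300) :
    wit M ((M + 1) * (M + a) - 1) (a + (a - 1) / M + 1) = true := by
  have h := checkA_true
  rw [checkA, List.all_eq_true] at h
  have h1 := h a (List.mem_range.2 haR)
  rw [Bool.or_eq_true, Nat.blt_eq] at h1
  rcases h1 with h1 | h1
  · omega
  obtain ⟨u, v, hu, hv, huv⟩ := (Nat.dvd_mul).1 hdvd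
  rw [checkA1, List.all_eq_true] at h1
  have h2 := h1 u (mem_divs (by omega) hu)
  rw [List.all_eq_true] at h2
  have h3 := h2 v (mem_divs (by omega) hv)
  have e : u * v - 2 = M := by omega
  rw [e, Bool.or_eq_true, Bool.or_eq_true, Nat.ble_eq, Nat.blt_eq] at h3
  rcases h3 with (h3 | h3) | h3
  · omega
  · omega
  · exact h3

/-- `2 ≤ M ≤ 30`, `4 ≤ a < M(M-1)`. -/
theorem wit_of_B {M a : ℕ} (hM2 : 2 ≤ M) (hM : M ≤ 30) (ha : 4 ≤ a) (haM : a < M * (M - 1))
    (hne : ¬ (M = 9 ∧ a = 13)) :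
    wit M ((M + 1) * (M + a) - 1) (a + (a - 1) / M + 1) = true := by
  have h := checkB_true
  rw [checkB, List.all_eq_true] at h
  have h1 := h M (List.mem_range.2 (by omega))
  rw [Bool.or_eq_true, Nat.blt_eq] at h1
  rcases h1 with h1 | h1
  · omega
  rw [List.all_eq_true] at h1
  have h2 := h1 a (List.mem_range.2 haM)
  rw [Bool.or_eq_true, Bool.or_eq_true, Bool.and_eq_true, Nat.blt_eq, Nat.beq_eq, Nat.beq_eq] at h2
  rcases h2 with (h2 | h2) | h2
  · omega
  · exact absurd h2 hne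
  · exact h2

/-- `2 ≤ M ≤ 30`, `y > M(M-1)`, `y ∣ C(M-1,d)`, `y ≡ d + 1` modulo `M + 1`. -/
theorem wit_of_C {M d y : ℕ} (hM2 : 2 ≤ M) (hM : M ≤ 30) (hd : d < M)
    (hy : M * (M - 1) < y) (hdvd : y ∣ (M - 1).choose d) (hmod : y % (M + 1) = (d + 1) % (M + 1)) :
    wit M (M * y + d) (max 3 (y - M)) = true := by
  have h := checkC_true
  rw [checkC, List.all_eq_true] at h
  have h1 := h M (List.mem_range.2 (by omega))
  rw [Bool.or_eq_true, Nat.blt_eq] at h1
  rcases h1 with h1 | h1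
  · omega
  rw [List.all_eq_true] at h1
  have h2 := h1 d (List.mem_range.2 hd)
  have hc : (M - 1).descFactorial d / d.factorial = (M - 1).choose d :=
    (Nat.choose_eq_descFactorial_div_factorial _ _).symm
  rw [hc] at h2
  obtain ⟨c, hcdef⟩ : ∃ c, c = (M - 1).choose d := ⟨_, rfl⟩
  rw [← hcdef] at h2 hdvd
  have hcpos : 0 < c := by rw [hcdef]; exact Nat.choose_pos (by omega)
  obtain ⟨k, hk⟩ := hdvd
  have hypos : 0 < y := by omega
  have hk0 : 0 < k := by
    rcases Nat.eq_zero_or_pos k with h0 | h0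
    · subst h0; omega
    · exact h0
  have hck : c % k = 0 := by rw [hk]; exact Nat.mul_mod_left _ _
  have hcdk : c / k = y := by rw [hk]; exact Nat.mul_div_cancel _ hk0
  rw [checkC2, List.all_eq_true] at h2
  have h3 := h2 (k % (M + 1)) (List.mem_range.2 (Nat.mod_lt _ (by omega)))
  rw [Bool.or_eq_true] at h3
  have hcong : (k % (M + 1) * (d + 1)) % (M + 1) = c % (M + 1) := by
    rw [hk, Nat.mul_comm y k, Nat.mul_mod k y, hmod, ← Nat.mul_mod, Nat.mod_mul_mod]
  rcases h3 with h3 | h3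
  · rw [Bool.not_eq_true'] at h3
    exfalso
    have h4 : Nat.beq ((k % (M + 1) * (d + 1)) % (M + 1)) (c % (M + 1)) = true := by
      rw [Nat.beq_eq]; exact hcong
    rw [h4] at h3
    exact Bool.noConfusion h3
  rw [List.all_eq_true] at h3
  have hkle : k ≤ c / (M * (M - 1) + 1) := by
    rw [Nat.le_div_iff_mul_le (by omega)]
    calc k * (M * (M - 1) + 1) ≤ k * y := Nat.mul_le_mul_left _ (by omega)
      _ = c := by rw [hk]; ring
  have h5 := h3 (k / (M + 1)) (List.mem_range.2 (Nat.lt_succ_of_le (Nat.div_le_div_right hkle)))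
  have h6 : k % (M + 1) + (M + 1) * (k / (M + 1)) = k := Nat.mod_add_div k (M + 1)
  rw [h6, checkC1, Bool.or_eq_true, Bool.or_eq_true, Bool.or_eq_true, Bool.or_eq_true,
    hcdk, hck, hmod] at h5
  rcases h5 with (((h5 | h5) | h5) | h5) | h5
  · rw [Nat.beq_eq] at h5
    omega
  · exact absurd h5 (by decide)
  · rw [Bool.not_eq_true'] at h5
    exfalso
    have h7 : Nat.beq ((d + 1) % (M + 1)) ((d + 1) % (M + 1)) = true := by rw [Nat.beq_eq]
    rw [h7] at h5
    exact Bool.noConfusion h5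
  · rw [Nat.ble_eq] at h5
    omega
  · exact h5

end Pool.Agent.SteinerTits
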