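import Pool.Agent.SteinerTits.Star

/-! Number theory behind the classification of equality in Tits' inequality. -/

namespace Pool.Agent.SteinerTits

section prime_case

variable {p t : ℕ}

theorem star1 {M N t : ℕ}
    (hD : ∀ j, 1 ≤ j → j ≤ t → (M + j).choose j ∣ (N + j).choose j)
    {r : ℕ} (hr : r.Prime) (hle : r ≤ t + M % r) : M % r ≤ N % r := by
  have := star hD hr (i := 1) (by simpa using hle)
  simpa using this

/-- Small primes `5 ≤ p < 50`. -/
theorem prime_small (hp : p.Prime) (h5 : 5 ≤ p) (h50 : p < 50) (ht : t + 1 = p * (p - 1))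
    (hD : ∀ j, 1 ≤ j → j ≤ t → (p + j).choose j ∣ (p * (t + 1) + 1 + j).choose j) : False := by
  have key : ∃ r ∈ [5, 7, 11, 13, 17], r.Prime ∧ r ≤ p * (p - 1) - 1 + p % r ∧
      (p * (p * (p - 1)) + 1) % r < p % r := by
    interval_cases p <;> first | (exfalso; revert hp; decide) | simp (config := {decide := true})
  obtain ⟨r, -, hr, hle, hlt⟩ := key
  have ht' : t = p * (p - 1) - 1 := by omega
  have := star1 hD hr (by rw [ht']; exact hle)
  rw [ht] at this
  omega

/-- A prime power dividing `p^2+p+2` and at most `t` divides `2464`. -/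
theorem key_dvd (hp : p.Prime) (h5 : 5 ≤ p) (ht : t + 1 = p * (p - 1))
    (hD : ∀ j, 1 ≤ j → j ≤ t → (p + j).choose j ∣ (p * (t + 1) + 1 + j).choose j)
    {r i : ℕ} (hr : r.Prime) (hi : 1 ≤ i) (hle : r ^ i ≤ t) (hF : r ^ i ∣ p ^ 2 + p + 2) :
    r ^ i ∣ 2464 := by
  obtain ⟨Q, hQ⟩ : ∃ Q, Q = r ^ i := ⟨_, rfl⟩
  have hst := star hD hr (i := i) (by rw [← hQ] at hle ⊢; omega)
  rw [← hQ] at hst hle hF ⊢
  have hQ2 : 2 ≤ Q := by
    rw [hQ]
    calc 2 ≤ r := hr.two_le
      _ = r ^ 1 := (pow_one r).symm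
      _ ≤ r ^ i := Nat.pow_le_pow_right hr.pos hi
  -- N = p^3 - p^2 + 1 = (p-2)(p^2+p+2) + 5
  have hN : p * (t + 1) + 1 = (p - 2) * (p ^ 2 + p + 2) + 5 := by
    rw [ht]
    obtain ⟨q, rfl⟩ : ∃ q, p = q + 2 := ⟨p - 2, by omega⟩
    simp only [Nat.add_sub_cancel]
    have : q + 2 - 1 = q + 1 := by omega
    rw [this]
    ring
  have hNmod : (p * (t + 1) + 1) % Q = 5 % Q := by
    rw [hN]
    obtain ⟨e, he⟩ := hF
    rw [he]
    have : (p - 2) * (Q * e) + 5 = 5 + Q * ((p - 2) * e) := by ring
    rw [this, Nat.add_mul_mod_self_left]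
  rw [hNmod] at hst
  -- a = p mod Q satisfies a^2+a+2 = 0 mod Q
  obtain ⟨a, ha⟩ : ∃ a, a = p % Q := ⟨_, rfl⟩
  rw [← ha] at hst
  have haF : Q ∣ a ^ 2 + a + 2 := by
    have h1 : (p ^ 2 + p + 2) ≡ (a ^ 2 + a + 2) [MOD Q] := by
      have h2 : p ≡ a [MOD Q] := by
        rw [ha]
        exact (Nat.mod_modEq p Q).symm
      exact ((h2.pow 2).add h2).add_right 2
    exact (Nat.modEq_zero_iff_dvd.1 (h1.symm.trans (Nat.modEq_zero_iff_dvd.2 hF)))
  have haQ : a < Q := by rw [ha]; exact Nat.mod_lt _ (by omega)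
  have ha0 : 1 ≤ a := by
    rcases Nat.eq_zero_or_pos a with h | h
    · exfalso
      rw [h] at ha haF
      -- Q ∣ p, so r = p, Q ∣ 2
      have h3 : Q ∣ 2 := by simpa using haF
      have h4 : Q ∣ p := Nat.dvd_of_mod_eq_zero ha.symm
      have h5' : Q = 2 := by
        have := Nat.le_of_dvd (by norm_num) h3
        omega
      rw [h5'] at h4
      have := (Nat.prime_dvd_prime_iff_eq Nat.prime_two hp).1 h4
      omega
    · exact h
  rcases le_or_gt Q 5 with h6 | h6
  · interval_cases Q
    · norm_num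
    · exfalso
      interval_cases a <;> norm_num at haF
    · norm_num
    · exfalso
      interval_cases a <;> norm_num at haF
  · rw [Nat.mod_eq_of_lt h6] at hst
    interval_cases a
    · exact (haF : Q ∣ 4).trans (by norm_num)
    · exact (haF : Q ∣ 8).trans (by norm_num)
    · exact (haF : Q ∣ 14).trans (by norm_num)
    · exact (haF : Q ∣ 22).trans (by norm_num)
    · exact (haF : Q ∣ 32).trans (by norm_num)

/-- Large primes. -/
theorem prime_large (hp : p.Prime) (h50 : 50 ≤ p) (ht : t + 1 = p * (p - 1))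
    (hD : ∀ j, 1 ≤ j → j ≤ t → (p + j).choose j ∣ (p * (t + 1) + 1 + j).choose j) : False := by
  obtain ⟨F, hFdef⟩ : ∃ F, F = p ^ 2 + p + 2 := ⟨_, rfl⟩
  have hpp : p * 50 ≤ p ^ 2 := by nlinarith
  have ht2 : t + 1 + p = p ^ 2 := by
    rw [ht]
    obtain ⟨q, rfl⟩ : ∃ q, p = q + 1 := ⟨p - 1, by omega⟩
    simp only [Nat.add_sub_cancel]
    ring
  have hFt : F ≤ 2 * t := by omega
  have h121 : 121 ≤ t := by omega
  have heven : 2 ∣ F := by
    rw [hFdef]
    have h1 : 2 ∣ p * (p + 1) := (Nat.even_mul_succ_self p).two_dvd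
    have h2 : p ^ 2 + p + 2 = p * (p + 1) + 2 := by ring
    rw [h2]
    exact Nat.dvd_add h1 (dvd_refl 2)
  have hFpos : 0 < F := by omega
  have hkey : ∀ r i : ℕ, r.Prime → 1 ≤ i → r ^ i ≤ t → r ^ i ∣ F → r ^ i ∣ 2464 := by
    intro r i hr hi hle hF
    rw [hFdef] at hF
    exact key_dvd hp (by omega) ht hD hr hi hle hF
  have hdvd : F ∣ 2464 := by
    rw [Nat.dvd_iff_prime_pow_dvd_dvd]
    intro r k hr hk
    rcases Nat.eq_zero_or_pos k with h0 | hkpos
    · subst h0; simp
    -- r ≤ t
    have hrF : r ∣ F := (dvd_pow_self r hkpos.ne').trans hk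
    have hrt : r ≤ t := by
      by_cases hr2 : r = 2
      · omega
      · have hcop : Nat.Coprime r 2 := (Nat.coprime_primes hr Nat.prime_two).2 hr2
        have h3 : r * 2 ∣ F := hcop.mul_dvd_of_dvd_of_dvd hrF heven
        have := Nat.le_of_dvd hFpos h3
        omega
    have h4 : r ∣ 2464 := by
      have := hkey r 1 hr le_rfl (by simpa using hrt) (by simpa using hrF)
      simpa using this
    have h5 : (2464 : ℕ) = 2 ^ 5 * 7 * 11 := by norm_num
    rw [h5] at h4
    rcases (Nat.Prime.dvd_mul hr).1 h4 with h6 | h6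
    · rcases (Nat.Prime.dvd_mul hr).1 h6 with h7 | h7
      · -- r = 2
        have hr2 : r = 2 := (Nat.prime_dvd_prime_iff_eq hr Nat.prime_two).1 (hr.dvd_of_dvd_pow h7)
        subst hr2
        have hk5 : k ≤ 5 := by
          by_contra hcon
          have h8 : 2 ^ 6 ∣ F := (pow_dvd_pow 2 (by omega : 6 ≤ k)).trans hk
          have := hkey 2 6 Nat.prime_two (by norm_num) (by norm_num; omega) h8
          norm_num at this
        exact (pow_dvd_pow 2 hk5).trans (by norm_num)
      · have hr7 : r = 7 := (Nat.prime_dvd_prime_iff_eq hr (by norm_num)).1 h7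
        subst hr7
        have hk1 : k ≤ 1 := by
          by_contra hcon
          have h8 : 7 ^ 2 ∣ F := (pow_dvd_pow 7 (by omega : 2 ≤ k)).trans hk
          have := hkey 7 2 (by norm_num) (by norm_num) (by norm_num; omega) h8
          norm_num at this
        exact (pow_dvd_pow 7 hk1).trans (by norm_num)
    · have hr11 : r = 11 := (Nat.prime_dvd_prime_iff_eq hr (by norm_num)).1 h6
      subst hr11
      have hk1 : k ≤ 1 := by
        by_contra hcon
        have h8 : 11 ^ 2 ∣ F := (pow_dvd_pow 11 (by omega : 2 ≤ k)).trans hk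
        have := hkey 11 2 (by norm_num) (by norm_num) (by norm_num; omega) h8
        norm_num at this
      exact (pow_dvd_pow 11 hk1).trans (by norm_num)
  have := Nat.le_of_dvd (by norm_num) hdvd
  omega

end prime_case

/-- The complete solution of the divisibility conditions on Tits' boundary. -/
theorem classify {M t : ℕ} (hM : 1 ≤ M) (ht : 2 ≤ t)
    (hD : ∀ j, 1 ≤ j → j ≤ t → (M + j).choose j ∣ (M * (t + 1) + 1 + j).choose j) :
    (M = 1 ∧ (t + 2).Prime) ∨ (M = 3 ∧ t = 5) := by
  rcases Nat.lt_or_ge 1 M with hM2 | hM1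
  swap
  · -- M = 1
    left
    have hM1' : M = 1 := by omega
    subst hM1'
    refine ⟨rfl, ?_⟩
    by_contra hcon
    have hmf := Nat.minFac_prime (n := t + 2) (by omega)
    have hlt : (t + 2).minFac < t + 2 := by
      rcases (Nat.minFac_le (n := t + 2) (by omega)).lt_or_eq with h | h
      · exact h
      · exfalso
        apply hcon
        rw [← h]
        exact hmf
    have h1 : 1 % (t + 2).minFac = 1 := Nat.mod_eq_of_lt hmf.one_lt
    have h2 := star1 hD hmf (by rw [h1]; omega)
    rw [h1] at h2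
    have h3 : (1 * (t + 1) + 1) % (t + 2).minFac = 0 := by
      have : 1 * (t + 1) + 1 = t + 2 := by ring
      rw [this]
      exact Nat.mod_eq_zero_of_dvd (Nat.minFac_dvd _)
    omega
  right
  -- M ≥ 2
  obtain ⟨s, hs, hts⟩ : ∃ s, 1 ≤ s ∧ t = (M + 1) * s + 1 := by
    have h1 := hD 1 le_rfl (by omega)
    rw [Nat.choose_one_right, Nat.choose_one_right] at h1
    have h2 : M * (t + 1) + 1 + 1 + (t - 1) = (M + 1) * (t + 1) := by
      obtain ⟨t', rfl⟩ : ∃ t', t = t' + 1 := ⟨t - 1, by omega⟩
      simp only [Nat.add_sub_cancel]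
      ring
    have h3 : (M + 1) ∣ t - 1 := by
      have h4 : (M + 1) ∣ M * (t + 1) + 1 + 1 + (t - 1) := by rw [h2]; exact Dvd.intro _ rfl
      exact (Nat.dvd_add_right h1).1 h4
    obtain ⟨s, hs⟩ := h3
    refine ⟨s, ?_, by omega⟩
    rcases Nat.eq_zero_or_pos s with h | h
    · subst h; omega
    · exact h
  have htM : M + 2 ≤ t := by
    rw [hts]
    nlinarith
  obtain ⟨u, hu⟩ : ∃ u, u = t + 1 := ⟨_, rfl⟩
  -- Step 1
  have step1 : ∀ r k : ℕ, r.Prime → ¬ r ∣ M → r ^ k ∣ u → r ^ k ∣ M - 1 := by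
    intro r k hr hrM hk
    rcases Nat.eq_zero_or_pos k with h0 | hkpos
    · subst h0; simp
    have hQu : r ^ k ≤ u := Nat.le_of_dvd (by omega) hk
    have hQ2 : 2 ≤ r ^ k := by
      calc 2 ≤ r := hr.two_le
        _ = r ^ 1 := (pow_one r).symm
        _ ≤ r ^ k := Nat.pow_le_pow_right hr.pos hkpos
    have ha : 1 ≤ M % r ^ k := by
      rw [Nat.one_le_iff_ne_zero]
      intro h
      exact hrM ((dvd_pow_self r hkpos.ne').trans (Nat.dvd_of_mod_eq_zero h))
    have hst := star hD hr (i := k) (by omega)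
    have hN : (M * (t + 1) + 1) % r ^ k = 1 := by
      rw [← hu]
      obtain ⟨e, he⟩ := hk
      rw [he]
      have : M * (r ^ k * e) + 1 = 1 + r ^ k * (M * e) := by ring
      rw [this, Nat.add_mul_mod_self_left, Nat.mod_eq_of_lt (by omega)]
    rw [hN] at hst
    have hM1 : M % r ^ k = 1 := le_antisymm hst ha
    have := Nat.dvd_sub_mod (n := r ^ k) M
    rwa [hM1] at this
  -- Step 2
  have step2 : ∀ r : ℕ, r.Prime → r ∣ M → r ∣ u →
      t + 1 + M ≤ r ^ (M.factorization r + 1) := by
    intro r hr hrM hru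
    obtain ⟨m, hm⟩ : ∃ m, m = M.factorization r := ⟨_, rfl⟩
    rw [← hm]
    have hm1 : 1 ≤ m := by
      rw [hm]
      exact (hr.dvd_iff_one_le_factorization (by omega)).1 hrM
    have hmM : r ^ m ∣ M := by rw [hm]; exact Nat.ordProj_dvd M r
    have hnot : ¬ r ^ (m + 1) ∣ M := by
      rw [hm]
      exact Nat.pow_succ_factorization_not_dvd (by omega) hr
    have hr2 : 2 ≤ r ^ m := by
      calc 2 ≤ r := hr.two_le
        _ = r ^ 1 := (pow_one r).symm
        _ ≤ r ^ m := Nat.pow_le_pow_right hr.pos hm1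
    have ha : 2 ≤ M % r ^ (m + 1) := by
      have h1 : M % r ^ (m + 1) ≠ 0 := fun h => hnot (Nat.dvd_of_mod_eq_zero h)
      have h2 : r ^ m ∣ M % r ^ (m + 1) :=
        (Nat.dvd_mod_iff (pow_dvd_pow r (Nat.le_succ m))).2 hmM
      have := Nat.le_of_dvd (by omega) h2
      omega
    have hN : (M * (t + 1) + 1) % r ^ (m + 1) = 1 := by
      rw [← hu]
      have h1 : r ^ (m + 1) ∣ M * u := by
        rw [pow_succ]
        exact Nat.mul_dvd_mul hmM hru
      obtain ⟨e, he⟩ := h1
      rw [he, Nat.add_comm, Nat.add_mul_mod_self_left, Nat.mod_eq_of_lt]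
      calc 1 < r ^ m := hr2
        _ ≤ r ^ (m + 1) := Nat.pow_le_pow_right hr.pos (Nat.le_succ m)
    have hgt : t + M % r ^ (m + 1) < r ^ (m + 1) := by
      by_contra hcon
      have := star hD hr (i := m + 1) (by omega)
      rw [hN] at this
      omega
    have hMlt : M < r ^ (m + 1) := by omega
    rw [Nat.mod_eq_of_lt hMlt] at hgt
    omega
  -- Step 3
  have step3 : ∀ r r' : ℕ, r.Prime → r'.Prime → r ∣ M → r' ∣ M → r ∣ u → r' ∣ u → r = r' := by
    have aux : ∀ r r' : ℕ, r.Prime → r'.Prime → r ∣ M → r' ∣ M → r ∣ u → r ≠ r' → r' < r := by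
      intro r r' hr hr' hrM hr'M hru hne
      have h1 := step2 r hr hrM hru
      have h2 : r ^ M.factorization r * r' ∣ M := by
        apply Nat.Coprime.mul_dvd_of_dvd_of_dvd _ (Nat.ordProj_dvd M r) hr'M
        exact Nat.Coprime.pow_left _ ((Nat.coprime_primes hr hr').2 hne)
      have h3 := Nat.le_of_dvd (by omega) h2
      rw [pow_succ] at h1
      have h4 : r ^ M.factorization r * r' < r ^ M.factorization r * r := by omega
      exact lt_of_mul_lt_mul_left h4 (Nat.zero_le _)
    intro r r' hr hr' hrM hr'M hru hr'u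
    by_contra hne
    have h1 := aux r r' hr hr' hrM hr'M hru hne
    have h2 := aux r' r hr' hr hr'M hrM hr'u (Ne.symm hne)
    omega
  -- Step 4
  obtain ⟨p, hp, hpM, hpu⟩ : ∃ p, p.Prime ∧ p ∣ M ∧ p ∣ u := by
    by_contra hcon
    push Not at hcon
    have h1 : u ∣ M - 1 := by
      rw [Nat.dvd_iff_prime_pow_dvd_dvd]
      intro r k hr hk
      rcases Nat.eq_zero_or_pos k with h0 | hkpos
      · subst h0; simp
      apply step1 r k hr _ hk
      intro hrM
      exact hcon r hr hrM ((dvd_pow_self r hkpos.ne').trans hk)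
    have := Nat.le_of_dvd (by omega) h1
    omega
  have hQ := step2 p hp hpM hpu
  obtain ⟨P, hPdef⟩ : ∃ P, P = p ^ u.factorization p := ⟨_, rfl⟩
  obtain ⟨u1, hu1def⟩ : ∃ u1, u1 = u / p ^ u.factorization p := ⟨_, rfl⟩
  have huP : u = P * u1 := by
    rw [hPdef, hu1def]
    exact (Nat.ordProj_mul_ordCompl_eq_self u p).symm
  have hu0 : u ≠ 0 := by omega
  have hpu1 : ¬ p ∣ u1 := by
    rw [hu1def]
    exact Nat.not_dvd_ordCompl hp hu0
  have hc1 : 1 ≤ u.factorization p := (hp.dvd_iff_one_le_factorization hu0).1 hpu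
  have hP2 : 2 ≤ P := by
    rw [hPdef]
    calc 2 ≤ p := hp.two_le
      _ = p ^ 1 := (pow_one p).symm
      _ ≤ p ^ _ := Nat.pow_le_pow_right hp.pos hc1
  have hu1M : u1 ∣ M - 1 := by
    rw [Nat.dvd_iff_prime_pow_dvd_dvd]
    intro r k hr hk
    rcases Nat.eq_zero_or_pos k with h0 | hkpos
    · subst h0; simp
    have hrk : r ^ k ∣ u := hk.trans (by rw [huP]; exact Dvd.intro_left _ rfl)
    have hru1 : r ∣ u1 := (dvd_pow_self r hkpos.ne').trans hk
    have hru : r ∣ u := (dvd_pow_self r hkpos.ne').trans hrk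
    apply step1 r k hr _ hrk
    intro hrM
    have := step3 r p hr hp hrM hpM hru hpu
    subst this
    exact hpu1 hru1
  have hcm : u.factorization p ≤ M.factorization p := by
    by_contra hcon
    have h1 : p ^ (M.factorization p + 1) ∣ u :=
      (pow_dvd_pow p (by omega)).trans (Nat.ordProj_dvd u p)
    have := Nat.le_of_dvd (by omega) h1
    omega
  have hPM : P ∣ M := by
    rw [hPdef]
    exact (pow_dvd_pow p hcm).trans (Nat.ordProj_dvd M p)
  obtain ⟨w, hw⟩ := hu1M
  -- 2(w+P) = (M+1) κ, κ = P - s w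
  have hmain : 2 * (w + P) + (M + 1) * (s * w) = (M + 1) * P := by
    have h1 : P * u1 = (M + 1) * s + 2 := by rw [← huP, hu, hts]
    have h2 : u1 * w + 1 = M := by omega
    have h3 : w * (P * u1) + P = M * P := by
      calc w * (P * u1) + P = (u1 * w + 1) * P := by ring
        _ = M * P := by rw [h2]
    rw [h1] at h3
    nlinarith
  obtain ⟨κ, hκ⟩ : ∃ κ, P = s * w + κ := by
    have : s * w ≤ P := by
      by_contra hcon
      have h1 : (M + 1) * P ≤ (M + 1) * (s * w) := Nat.mul_le_mul_left _ (by omega)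
      have : 2 * (w + P) ≤ 0 := by omega
      omega
    exact ⟨P - s * w, by omega⟩
  have hκmain : 2 * (w + P) = (M + 1) * κ := by
    have : (M + 1) * P = (M + 1) * (s * w) + (M + 1) * κ := by rw [hκ]; ring
    omega
  have hκ1 : 1 ≤ κ := by
    rcases Nat.eq_zero_or_pos κ with h | h
    · subst h; omega
    · exact h
  have hwP : w + 1 ≤ P := by
    have : w ≤ s * w := Nat.le_mul_of_pos_left w hs
    omega
  have hPleM : P ≤ M := Nat.le_of_dvd (by omega) hPM
  have hw1 : 1 ≤ w := by
    rcases Nat.eq_zero_or_pos w with h | h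
    · subst h; omega
    · exact h
  have hwM : w ≤ M - 1 := by
    rw [hw]
    exact Nat.le_mul_of_pos_left w (Nat.pos_of_ne_zero (by rintro rfl; omega))
  have hκ3 : κ ≤ 3 := by
    by_contra hcon
    have h1 : (M + 1) * 4 ≤ (M + 1) * κ := Nat.mul_le_mul_left _ (by omega)
    omega
  obtain ⟨g, hg⟩ := hPM
  -- the three cases
  have hfin : (w = 1 ∧ P = M) ∨ (P = 3 ∧ M = 9 ∧ w = 2) ∨ (P = 7 ∧ M = 21 ∧ w = 4)
      ∨ (P = 5 ∧ M = 5 ∧ w = 4) := by
    have hg1 : 1 ≤ g := by
      rcases Nat.eq_zero_or_pos g with h | h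
      · subst h; omega
      · exact h
    interval_cases κ
    · -- κ = 1
      have hg3 : g ≤ 3 := by
        by_contra hcon
        have : P * 4 ≤ P * g := Nat.mul_le_mul_left _ (by omega)
        omega
      interval_cases g
      · omega
      · omega
      · -- M = 3P, 2w = P+1
        have hP' : P + 1 = 2 * w := by omega
        have hw4 : w ∣ 4 := by
          have h1 : M - 1 + 4 = w * 6 := by omega
          have h2 : w ∣ M - 1 + 4 := by rw [h1]; exact Dvd.intro _ rfl
          have h3 : w ∣ M - 1 := by rw [hw]; exact Dvd.intro_left _ rfl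
          exact (Nat.dvd_add_right h3).1 h2
        have hwle : w ≤ 4 := Nat.le_of_dvd (by norm_num) hw4
        interval_cases w <;> omega
    · -- κ = 2
      have hg1' : g ≤ 1 := by
        by_contra hcon
        have : P * 2 ≤ P * g := Nat.mul_le_mul_left _ (by omega)
        omega
      have : g = 1 := by omega
      subst this
      left
      omega
    · -- κ = 3
      have hg1' : g ≤ 1 := by
        by_contra hcon
        have : P * 2 ≤ P * g := Nat.mul_le_mul_left _ (by omega)
        omega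
      have : g = 1 := by omega
      subst this
      have hP' : P + 3 = 2 * w := by omega
      have hw4 : w ∣ 4 := by
        have h1 : M - 1 + 4 = w * 2 := by omega
        have h2 : w ∣ M - 1 + 4 := by rw [h1]; exact Dvd.intro _ rfl
        have h3 : w ∣ M - 1 := by rw [hw]; exact Dvd.intro_left _ rfl
        exact (Nat.dvd_add_right h3).1 h2
      have hwle : w ≤ 4 := Nat.le_of_dvd (by norm_num) hw4
      interval_cases w <;> omega
  rcases hfin with ⟨hw', hPM'⟩ | ⟨hP', hM', hw'⟩ | ⟨hP', hM', hw'⟩ | ⟨hP', hM', hw'⟩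
  · -- main family
    subst hw'
    have hu' : u = M * (M - 1) := by rw [huP, hPM', hw]; ring
    have hMp : M = p := by
      -- M = p^c, c = m
      have h1 : M.factorization p = u.factorization p := by
        have : M = p ^ u.factorization p := by rw [← hPdef]; exact hPM'.symm
        conv_lhs => rw [this]
        rw [hp.factorization_pow]
        simp
      rw [h1] at hQ
      have h2 : p ^ u.factorization p = M := by rw [← hPdef]; exact hPM'
      have h3 : t + 1 + M = M * M := by
        rw [← hu, hu']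
        obtain ⟨M', rfl⟩ : ∃ M', M = M' + 1 := ⟨M - 1, by omega⟩
        simp only [Nat.add_sub_cancel]
        ring
      rw [h3, pow_succ, h2] at hQ
      have h4 : M ≤ p := le_of_mul_le_mul_left hQ (by omega)
      have h5 : p ≤ M := Nat.le_of_dvd (by omega) hpM
      omega
    subst hMp
    have htt : t + 1 = M * (M - 1) := by rw [← hu]; exact hu'
    rcases Nat.lt_or_ge M 5 with h5 | h5
    · interval_cases M
      · omega
      · refine ⟨rfl, by omega⟩
      · exact absurd hp (by norm_num)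
    · exfalso
      rcases Nat.lt_or_ge M 50 with h50 | h50
      · exact prime_small hp h5 h50 htt hD
      · exact prime_large hp h50 htt hD
  · exfalso
    subst hM'
    subst hw'
    have hu1 : u1 = 4 := by omega
    have ht11 : t = 11 := by
      rw [hP', hu1] at huP
      omega
    subst ht11
    have := star1 hD (r := 13) (by norm_num) (by norm_num)
    norm_num at this
  · exfalso
    subst hM'
    subst hw'
    have hu1 : u1 = 5 := by omega
    have ht34 : t = 34 := by
      rw [hP', hu1] at huP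
      omega
    subst ht34
    have := star hD (p := 7) (i := 2) (by norm_num) (by norm_num)
    norm_num at this
  · exfalso
    subst hM'
    subst hw'
    have hu1 : u1 = 1 := by omega
    rw [hP', hu1] at huP
    omega

end Pool.Agent.SteinerTits
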