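import Mathlib
import Pool.Agent.SteinerTits.Star

/-! For `t ≥ M(M-1)` and `M(t+1) ≤ N < M(M+t+1)`, the divisibility conditions force
`⌊N/M⌋` to divide `C(M-1, N mod M)`. -/

namespace Pool.Agent.SteinerTits

open Finset in
/-- Kummer's theorem in the form needed. -/
theorem pow_dvd_mul_choose {M d p k : ℕ} (hM : 1 ≤ M) (hd : d < M) (hp : p.Prime)
    (h : ∀ l, 1 ≤ l → l ≤ k → M % p ^ l ≤ d % p ^ l) :
    p ^ k ∣ M * (M - 1).choose d := by
  have e1 : M * (M - 1).choose d = M.choose (d + 1) * (d + 1) := by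
    have := Nat.add_one_mul_choose_eq (M - 1) d
    have e : M - 1 + 1 = M := by omega
    rw [e] at this
    exact this
  have hpos : 0 < M.choose (d + 1) := Nat.choose_pos (by omega)
  rw [e1, hp.pow_dvd_iff_le_factorization (by positivity),
    Nat.factorization_mul hpos.ne' (by omega), Finsupp.add_apply]
  obtain ⟨v, hv⟩ : ∃ v, v = (d + 1).factorization p := ⟨_, rfl⟩
  rw [← hv]
  obtain ⟨b, hb1, hb2⟩ : ∃ b, Nat.log p (M - (d + 1) + (d + 1)) < b ∧ k < b :=
    ⟨Nat.log p (M - (d + 1) + (d + 1)) + k + 1, by omega, by omega⟩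
  have hk := Nat.factorization_choose' hp hb1
  have e2 : M - (d + 1) + (d + 1) = M := by omega
  rw [e2] at hk
  rw [hk]
  have hsub : Icc (v + 1) k ⊆ {i ∈ Ico 1 b | p ^ i ≤ (d + 1) % p ^ i + (M - (d + 1)) % p ^ i} := by
    intro l hl
    rw [mem_Icc] at hl
    rw [mem_filter, mem_Ico]
    refine ⟨⟨by omega, by omega⟩, ?_⟩
    have hPpos : 0 < p ^ l := pow_pos hp.pos l
    have hnd : ¬ p ^ l ∣ d + 1 := by
      intro hh
      rw [hp.pow_dvd_iff_le_factorization (by omega), ← hv] at hh
      omega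
    have hMd := h l (by omega) hl.2
    obtain ⟨P, hP⟩ : ∃ P, P = p ^ l := ⟨_, rfl⟩
    rw [← hP] at hnd hMd hPpos ⊢
    have h1 : (d + 1) % P = d % P + 1 := by
      have h2 : d % P + 1 < P ∨ d % P + 1 = P := by
        have := Nat.mod_lt d hPpos
        omega
      rcases h2 with h2 | h2
      · rw [Nat.add_mod]
        rcases Nat.lt_or_ge 1 P with h3 | h3
        · rw [Nat.mod_eq_of_lt h3, Nat.mod_eq_of_lt h2]
        · exfalso
          have : P = 1 := by omega
          apply hnd
          rw [this]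
          exact one_dvd _
      · exfalso
        apply hnd
        rw [Nat.dvd_iff_mod_eq_zero, ← Nat.mod_add_mod, h2, Nat.mod_self]
    by_contra hcon
    push Not at hcon
    have h4 : ((d + 1) % P + (M - (d + 1)) % P) % P = M % P := by
      rw [← Nat.add_mod]
      congr 1
      omega
    rw [Nat.mod_eq_of_lt hcon] at h4
    omega
  have hc := card_le_card hsub
  rw [Nat.card_Icc] at hc
  omega

theorem key_y {M N t : ℕ} (hM : 2 ≤ M) (ht : M * (M - 1) ≤ t)
    (hD : ∀ j, 1 ≤ j → j ≤ t → (M + j).choose j ∣ (N + j).choose j)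
    (hTits : M * (t + 1) ≤ N) (hlt : N < M * (M + t + 1)) :
    N / M ∣ (M - 1).choose (N % M) := by
  obtain ⟨y, hy⟩ : ∃ y, y = N / M := ⟨_, rfl⟩
  obtain ⟨d, hd⟩ : ∃ d, d = N % M := ⟨_, rfl⟩
  have hN : M * y + d = N := by rw [hy, hd]; exact Nat.div_add_mod N M
  have hdM : d < M := by rw [hd]; exact Nat.mod_lt _ (by omega)
  rw [← hy, ← hd]
  have hy1 : t + 1 ≤ y := by
    rw [hy, Nat.le_div_iff_mul_le (by omega)]
    rw [mul_comm]; exact hTits
  have hy2 : y ≤ M + t := by
    have : y < M + t + 1 := by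
      rw [hy]
      exact Nat.div_lt_of_lt_mul hlt
    omega
  have hMM : M * M ≤ t + M := by
    obtain ⟨M', rfl⟩ : ∃ M', M = M' + 1 := ⟨M - 1, by omega⟩
    simp only [Nat.add_sub_cancel] at ht
    nlinarith
  have hMt : M ≤ t := by
    have : M * 1 ≤ M * (M - 1) := Nat.mul_le_mul_left _ (by omega)
    omega
  have hNmod : ∀ P, P ∣ M * y → N % P = d % P := by
    rintro P ⟨e, he⟩
    rw [← hN, he, Nat.mul_add_mod]
  -- prime powers dividing `M y` are at most `M`
  have claim1 : ∀ p k : ℕ, p.Prime → p ^ k ∣ M * y → p ^ k ≤ M := by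
    intro p k hp hk
    by_contra hcon
    push Not at hcon
    have hex : ∃ i, M < p ^ i := ⟨k, hcon⟩
    classical
    obtain ⟨i, hi⟩ : ∃ i, i = Nat.find hex := ⟨_, rfl⟩
    have hi1 : M < p ^ i := by rw [hi]; exact Nat.find_spec hex
    have hik : i ≤ k := by rw [hi]; exact Nat.find_min' hex hcon
    have hi0 : i ≠ 0 := by
      rintro h0
      rw [h0] at hi1
      simp at hi1
      omega
    have hpred : p ^ (i - 1) ≤ M := by
      by_contra hcon2
      push Not at hcon2
      have := Nat.find_min' hex hcon2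
      omega
    have hple : p ^ i ≤ t + M := by
      rcases Nat.lt_or_ge M p with hpM | hpM
      · have h1 : i ≤ 1 := by
          rw [hi]
          apply Nat.find_min' hex
          simpa using hpM
        have h2 : i = 1 := by omega
        rw [h2, pow_one]
        have h3 : p ∣ M * y := (dvd_pow_self p (by omega : k ≠ 0)).trans hk
        rcases (hp.dvd_mul).1 h3 with h4 | h4
        · have := Nat.le_of_dvd (by omega) h4
          omega
        · have := Nat.le_of_dvd (by omega) h4
          omega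
      · have h1 : p ^ i = p ^ (i - 1) * p := by
          rw [← pow_succ]
          congr 1
          omega
        have h2 : p ^ (i - 1) * p ≤ M * M := Nat.mul_le_mul hpred hpM
        omega
    have hMm : M % p ^ i = M := Nat.mod_eq_of_lt hi1
    have hst := star hD hp (i := i) (by rw [hMm]; exact hple)
    rw [hMm, hNmod _ ((pow_dvd_pow p hik).trans hk)] at hst
    have := Nat.mod_le d (p ^ i)
    omega
  have claim2 : ∀ p k : ℕ, p.Prime → p ^ k ∣ M * y → p ^ k ∣ M * (M - 1).choose d := by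
    intro p k hp hk
    have hkM := claim1 p k hp hk
    apply pow_dvd_mul_choose (by omega) hdM hp
    intro l _ hlk
    have hple : p ^ l ≤ p ^ k := Nat.pow_le_pow_right hp.pos hlk
    have hst := star hD hp (i := l)
      (((hple.trans hkM).trans hMt).trans (Nat.le_add_right _ _))
    rwa [hNmod _ ((pow_dvd_pow p hlk).trans hk)] at hst
  rw [Nat.dvd_iff_prime_pow_dvd_dvd]
  intro p k hp hk
  have hCpos : 0 < (M - 1).choose d := Nat.choose_pos (by omega)
  have h1 : p ^ (M.factorization p + k) ∣ M * y := by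
    rw [pow_add]
    exact Nat.mul_dvd_mul (Nat.ordProj_dvd M p) hk
  have h2 := claim2 p _ hp h1
  rw [hp.pow_dvd_iff_le_factorization (Nat.mul_ne_zero (by omega) hCpos.ne'),
    Nat.factorization_mul (by omega) hCpos.ne', Finsupp.add_apply] at h2
  rw [hp.pow_dvd_iff_le_factorization hCpos.ne']
  omega

/-- The case of large `t`. -/
theorem large_false {M N t : ℕ} (hM : 2 ≤ M) (ht : M * (M - 1) ≤ t)
    (ht2 : (M - 1).choose ((M - 1) / 2) ≤ t)
    (hD : ∀ j, 1 ≤ j → j ≤ t → (M + j).choose j ∣ (N + j).choose j)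
    (hTits : M * (t + 1) ≤ N) (hlt : N < M * (M + t + 1)) : False := by
  have h1 := key_y hM ht hD hTits hlt
  have hdM : N % M < M := Nat.mod_lt _ (by omega)
  have h2 := Nat.le_of_dvd (Nat.choose_pos (by omega)) h1
  have h3 := Nat.choose_le_middle (N % M) (M - 1)
  have hy1 : t + 1 ≤ N / M := by
    rw [Nat.le_div_iff_mul_le (by omega)]
    rw [mul_comm]; exact hTits
  omega

/-- `M(M-1) ≤ C(M-1, ⌊(M-1)/2⌋)` for `M ≥ 11`. -/
theorem le_central {M : ℕ} (hM : 11 ≤ M) : M * (M - 1) ≤ (M - 1).choose ((M - 1) / 2) := by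
  have h1 := Nat.choose_le_middle 3 (M - 1)
  refine le_trans ?_ h1
  obtain ⟨m, rfl⟩ : ∃ m, M = m + 11 := ⟨M - 11, by omega⟩
  have e : m + 11 - 1 = m + 10 := by omega
  rw [e]
  have h2 : (m + 10).choose 3 * 6 = (m + 10) * (m + 9) * (m + 8) := by
    have h3 := Nat.descFactorial_eq_factorial_mul_choose (m + 10) 3
    simp only [Nat.descFactorial, Nat.factorial] at h3
    have e1 : m + 10 - 2 = m + 8 := by omega
    have e2 : m + 10 - 1 = m + 9 := by omega
    have e3 : m + 10 - 0 = m + 10 := by omega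
    rw [e1, e2, e3] at h3
    linarith
  have h4 : (m + 11) * (m + 10) * 6 ≤ (m + 10).choose 3 * 6 := by
    rw [h2]
    nlinarith [mul_self_nonneg (m : ℤ)]
  omega

end Pool.Agent.SteinerTits
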