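import Mathlib
import Pool.Agent.SteinerTits.Star
import Pool.Agent.SteinerTits.Equality
import Pool.Agent.SteinerTits.KeyY
import Pool.Agent.SteinerTits.Checks

/-! Number theory behind `n ≥ q(q-r+1)`. -/

namespace Pool.Agent.SteinerTits

/-- The divisibility condition in terms of ascending factorials. -/
theorem asc_dvd {M N j : ℕ} (h : (M + j).choose j ∣ (N + j).choose j) :
    (M + 1).ascFactorial j ∣ (N + 1).ascFactorial j := by
  rw [Nat.ascFactorial_eq_factorial_mul_choose, Nat.ascFactorial_eq_factorial_mul_choose]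
  exact Nat.mul_dvd_mul_left _ h

theorem case_a2 {M N r : ℕ} (hM : 2 ≤ M) (hr : 3 ≤ r)
    (hD : ∀ j, 1 ≤ j → j ≤ r → (M + j).choose j ∣ (N + j).choose j)
    (hTits : M * (r + 1) < N) (hN : N + 1 = (M + 1) * (M + 2)) :
    (M = 3 ∧ N = 19 ∧ 3 ≤ r ∧ r ≤ 5) ∨ (M = 9 ∧ N = 109 ∧ r = 3) := by
  have h3 := asc_dvd (hD 3 (by norm_num) hr)
  simp only [Nat.ascFactorial] at h3
  have e1 : N + 1 + 0 = (M + 1) * (M + 2) := by omega
  have e2 : N + 1 + 1 = (M + 3) * M + 3 := by
    rw [hN]; ring
  have e3 : N + 1 + 2 = (M + 3) * M + 4 := by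
    rw [hN]; ring
  rw [e3, e2, e1] at h3
  have h4 : (M + 1) * (M + 2) * (M + 3) ∣
      (M + 1) * (M + 2) * (((M + 3) * M + 3) * ((M + 3) * M + 4)) := by
    have ea : (M + 1 + 2) * ((M + 1 + 1) * ((M + 1 + 0) * 1)) = (M + 1) * (M + 2) * (M + 3) := by
      ring
    have eb : ((M + 3) * M + 4) * (((M + 3) * M + 3) * ((M + 1) * (M + 2) * 1))
        = (M + 1) * (M + 2) * (((M + 3) * M + 3) * ((M + 3) * M + 4)) := by ring
    rwa [ea, eb] at h3
  have h5 := Nat.dvd_of_mul_dvd_mul_left (by positivity) h4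
  have h6 : (M + 3) ∣ 12 := by
    have ec : ((M + 3) * M + 3) * ((M + 3) * M + 4)
        = (M + 3) * (M * ((M + 3) * M) + 7 * M) + 12 := by ring
    rw [ec] at h5
    exact (Nat.dvd_add_right (Dvd.intro _ rfl)).1 h5
  have h7 : M ≤ 9 := by
    have := Nat.le_of_dvd (by norm_num) h6
    omega
  have h8 : M = 3 ∨ M = 9 := by
    interval_cases M <;> simp_all
  rcases h8 with rfl | rfl
  · left
    refine ⟨rfl, by omega, hr, by omega⟩
  · right
    have hN' : N = 109 := by omega
    refine ⟨rfl, hN', ?_⟩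
    by_contra hne
    subst hN'
    have := star1 (N := 109) hD (r := 13) (by norm_num) (by norm_num; omega)
    norm_num at this

theorem case_a3 {M N r : ℕ} (hM : 2 ≤ M) (hr : 4 ≤ r)
    (hD : ∀ j, 1 ≤ j → j ≤ r → (M + j).choose j ∣ (N + j).choose j)
    (hlt : N < M * (M + r + 1)) (hN : N + 1 = (M + 1) * (M + 3)) :
    (M = 6 ∧ N = 62) ∨ ((M = 8 ∧ N = 98 ∨ M = 11 ∧ N = 167 ∨ M = 16 ∧ N = 322 ∨
      M = 26 ∧ N = 782 ∨ M = 56 ∧ N = 3362) ∧ r = 4) := by
  have h3 := asc_dvd (hD 4 (by norm_num) hr)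
  simp only [Nat.ascFactorial] at h3
  have e1 : N + 1 + 0 = (M + 1) * (M + 3) := by omega
  have e2 : N + 1 + 1 = (M + 2) * (M + 2) := by
    rw [hN]; ring
  have e3 : N + 1 + 2 = (M + 4) * M + 5 := by
    rw [hN]; ring
  have e4 : N + 1 + 3 = (M + 4) * M + 6 := by
    rw [hN]; ring
  rw [e4, e3, e2, e1] at h3
  have h4 : (M + 1) * (M + 2) * (M + 3) * (M + 4) ∣
      (M + 1) * (M + 2) * (M + 3) * ((M + 2) * (((M + 4) * M + 5) * ((M + 4) * M + 6))) := by
    have ea : (M + 1 + 3) * ((M + 1 + 2) * ((M + 1 + 1) * ((M + 1 + 0) * 1)))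
        = (M + 1) * (M + 2) * (M + 3) * (M + 4) := by
      ring
    have eb : ((M + 4) * M + 6) * (((M + 4) * M + 5) * ((M + 2) * (M + 2) *
        ((M + 1) * (M + 3) * 1)))
        = (M + 1) * (M + 2) * (M + 3) * ((M + 2) * (((M + 4) * M + 5) * ((M + 4) * M + 6))) := by
      ring
    rwa [ea, eb] at h3
  have h5 := Nat.dvd_of_mul_dvd_mul_left (by positivity) h4
  have h6 : (M + 4) ∣ 60 := by
    have ec : (M + 2) * (((M + 4) * M + 5) * ((M + 4) * M + 6)) + 60
        = (M + 4) * ((M + 2) * (M * ((M + 4) * M) + 11 * M) + 30) := by ring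
    have h7 : (M + 4) ∣ (M + 2) * (((M + 4) * M + 5) * ((M + 4) * M + 6)) + 60 := by
      rw [ec]; exact Dvd.intro _ rfl
    exact (Nat.dvd_add_right h5).1 h7
  have h7 : M ≤ 56 := by
    have := Nat.le_of_dvd (by norm_num) h6
    omega
  have h8 : M = 2 ∨ M = 6 ∨ M = 8 ∨ M = 11 ∨ M = 16 ∨ M = 26 ∨ M = 56 := by
    interval_cases M <;> first | omega | (exfalso; revert h6; decide)
  rcases h8 with rfl | rfl | rfl | rfl | rfl | rfl | rfl
  · exfalso
    have hN' : N = 14 := by omega
    subst hN'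
    have := star1 (N := 14) hD (r := 7) (by norm_num) (by norm_num; omega)
    norm_num at this
  · left
    exact ⟨rfl, by omega⟩
  · right
    have hN' : N = 98 := by omega
    refine ⟨by simp [hN'], ?_⟩
    by_contra hne
    subst hN'
    have := star1 (N := 98) hD (r := 13) (by norm_num) (by norm_num; omega)
    norm_num at this
  · right
    have hN' : N = 167 := by omega
    refine ⟨by simp [hN'], ?_⟩
    by_contra hne
    subst hN'
    have := star (N := 167) hD (p := 2) (i := 4) (by norm_num) (by norm_num; omega)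
    norm_num at this
  · right
    have hN' : N = 322 := by omega
    refine ⟨by simp [hN'], ?_⟩
    by_contra hne
    subst hN'
    have := star1 (N := 322) hD (r := 7) (by norm_num) (by norm_num; omega)
    norm_num at this
  · right
    have hN' : N = 782 := by omega
    refine ⟨by simp [hN'], ?_⟩
    by_contra hne
    subst hN'
    have := star1 (N := 782) hD (r := 31) (by norm_num) (by norm_num; omega)
    norm_num at this
  · right
    have hN' : N = 3362 := by omega
    refine ⟨by simp [hN'], ?_⟩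
    by_contra hne
    subst hN'
    have := star1 (N := 3362) hD (r := 61) (by norm_num) (by norm_num; omega)
    norm_num at this

theorem case_a4_dvd {M N r a : ℕ} (hr : 2 ≤ r) (ha : 4 ≤ a)
    (hD : ∀ j, 1 ≤ j → j ≤ r → (M + j).choose j ∣ (N + j).choose j)
    (hN : N + 1 = (M + 1) * (M + a)) : M + 2 ∣ (a - 2) * (a - 3) := by
  have h3 := asc_dvd (hD 2 (by norm_num) hr)
  simp only [Nat.ascFactorial] at h3
  obtain ⟨b, rfl⟩ : ∃ b, a = b + 3 := ⟨a - 3, by omega⟩
  have e1 : N + 1 + 0 = (M + 1) * (M + (b + 3)) := by omega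
  have e0 : N + 1 + 1 = N + 2 := by omega
  rw [e0, e1] at h3
  have h4 : (M + 1) * (M + 2) ∣ (M + 1) * ((M + 2 + (b + 1)) * (N + 2)) := by
    have ea : (M + 1 + 1) * ((M + 1 + 0) * 1) = (M + 1) * (M + 2) := by ring
    have eb : (N + 2) * ((M + 1) * (M + (b + 3)) * 1)
        = (M + 1) * ((M + 2 + (b + 1)) * (N + 2)) := by ring
    rwa [ea, eb] at h3
  have h5 := Nat.dvd_of_mul_dvd_mul_left (by positivity) h4
  have e2 : b + 3 - 2 = b + 1 := by omega
  have e3 : b + 3 - 3 = b := by omega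
  rw [e2, e3]
  have e4 : N + 2 + b = (M + 2) * (M + 2 + b) := by
    have : N + 2 + b = (M + 1) * (M + (b + 3)) + 1 + b := by omega
    rw [this]; ring
  have e5 : (M + 2 + (b + 1)) * (N + 2) + (b + 1) * b
      = (M + 2) * ((M + 2 + (b + 1)) * (M + 2 + b)) - (M + 2) * b := by
    have : (M + 2 + (b + 1)) * (N + 2) + (b + 1) * b + (M + 2) * b
        = (M + 2) * ((M + 2 + (b + 1)) * (M + 2 + b)) := by
      calc _ = (M + 2 + (b + 1)) * (N + 2 + b) := by ring
        _ = _ := by rw [e4]; ring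
    omega
  have h6 : M + 2 ∣ (M + 2 + (b + 1)) * (N + 2) + (b + 1) * b := by
    rw [e5]
    exact Nat.dvd_sub (Dvd.intro _ rfl) (Dvd.intro _ rfl)
  exact (Nat.dvd_add_right h5).1 h6

/-- The complete list of solutions of the divisibility conditions and of the inequalities of
Tits and Fisher below `n = q(q-r+1)`, in the four ranges. -/
theorem core {M N r : ℕ} (hM : 2 ≤ M) (hr : 3 ≤ r)
    (hD : ∀ j, 1 ≤ j → j ≤ r → (M + j).choose j ∣ (N + j).choose j)
    (hTits : M * (r + 1) < N) (hF : (M + 1) * (M + 2) ≤ N + 1)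
    (hlt : N < M * (M + r + 1))
    (hcase : r ≤ 300 ∨ M ≤ 30 ∨ (r - 2) * (r - 5) < M ∨ (M - 1).choose ((M - 1) / 2) ≤ r) :
    (M = 3 ∧ N = 19 ∧ 3 ≤ r ∧ r ≤ 5) ∨ (M = 9 ∧ N = 109 ∧ r = 3) ∨
    (4 ≤ r ∧ M = 6 ∧ N = 62) ∨ ((M = 8 ∧ N = 98 ∨ M = 11 ∧ N = 167 ∨ M = 16 ∧ N = 322 ∨
      M = 26 ∧ N = 782 ∨ M = 56 ∧ N = 3362) ∧ r = 4) ∨
    (M = 9 ∧ N = 219 ∧ 15 ≤ r ∧ r ≤ 17) := by
  -- `N + 1 = (M + 1) m`
  have h1 := hD 1 le_rfl (by omega)
  rw [Nat.choose_one_right, Nat.choose_one_right] at h1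
  obtain ⟨m, hm⟩ := h1
  have hm2 : M + 2 ≤ m := by
    rw [hm] at hF
    exact Nat.le_of_mul_le_mul_left hF (by omega)
  obtain ⟨a, rfl⟩ : ∃ a, m = M + a := ⟨m - M, by omega⟩
  have ha2 : 2 ≤ a := by omega
  -- `a (M+1) ≤ r M`
  have har : a * (M + 1) ≤ r * M := by nlinarith
  have har' : a < r := by
    by_contra hcon
    push Not at hcon
    have : r * M ≤ a * M := Nat.mul_le_mul_right _ hcon
    have : a * (M + 1) = a * M + a := by ring
    omega
  have hrmin : a + (a - 1) / M + 1 ≤ r := by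
    have h2 : (a - 1) / M < r - a := by
      rw [Nat.div_lt_iff_lt_mul (by omega)]
      have h3 : (r - a) * M = r * M - a * M := Nat.sub_mul _ _ _
      have h4 : a * (M + 1) = a * M + a := by ring
      omega
    omega
  rcases Nat.lt_or_ge a 4 with ha4 | ha4
  · have ha23 : a = 2 ∨ a = 3 := by omega
    rcases ha23 with rfl | rfl
    · rcases case_a2 hM hr hD hTits hm with h | h
      · exact Or.inl h
      · exact Or.inr (Or.inl h)
    · rcases case_a3 hM (by omega) hD hlt hm with h | h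
      · exact Or.inr (Or.inr (Or.inl ⟨by omega, h⟩))
      · exact Or.inr (Or.inr (Or.inr (Or.inl h)))
  -- `a ≥ 4`
  have hdvd := case_a4_dvd (by omega) ha4 hD hm
  have hNe : N = (M + 1) * (M + a) - 1 := by omega
  rcases Nat.lt_or_ge 30 M with hM30 | hM30
  · exfalso
    rcases hcase with h | h | h | h
    · have hw := wit_of_A ha4 (by omega) hM30 hdvd (by omega)
      rw [← hNe] at hw
      exact false_of_wit hD hrmin hw
    · omega
    · have h5 : M + 2 ≤ (a - 2) * (a - 3) := by
        apply Nat.le_of_dvd _ hdvd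
        exact Nat.mul_pos (by omega) (by omega)
      have h6 : (a - 2) * (a - 3) ≤ (r - 3) * (r - 4) := Nat.mul_le_mul (by omega) (by omega)
      have h7 : (r - 3) * (r - 4) = (r - 2) * (r - 5) + 2 := by
        obtain ⟨s, rfl⟩ : ∃ s, r = s + 5 := ⟨r - 5, by omega⟩
        have e1 : s + 5 - 3 = s + 2 := by omega
        have e2 : s + 5 - 4 = s + 1 := by omega
        have e3 : s + 5 - 2 = s + 3 := by omega
        have e4 : s + 5 - 5 = s := by omega
        rw [e1, e2, e3, e4]
        ring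
      omega
    · have h5 := le_central (M := M) (by omega)
      exact large_false hM (h5.trans h) h hD (by omega) hlt
  · -- `M ≤ 30`
    by_cases hex : M = 9 ∧ a = 13
    · obtain ⟨rfl, rfl⟩ := hex
      have hN' : N = 219 := by omega
      right; right; right; right
      refine ⟨rfl, hN', by omega, ?_⟩
      by_contra hcon
      subst hN'
      have := star (N := 219) hD (p := 3) (i := 3) (by norm_num) (by norm_num; omega)
      norm_num at this
    exfalso
    rcases Nat.lt_or_ge r (M * (M - 1)) with hrM | hrM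
    · have hw := wit_of_B hM hM30 ha4 (by omega) hex
      rw [← hNe] at hw
      exact false_of_wit hD hrmin hw
    · have hky := key_y hM hrM hD (by omega) hlt
      have hdM : N % M < M := Nat.mod_lt _ (by omega)
      have hNd : M * (N / M) + N % M = N := Nat.div_add_mod N M
      have hy1 : r + 1 ≤ N / M := by
        rw [Nat.le_div_iff_mul_le (by omega), mul_comm]
        omega
      have hy2 : N / M ≤ M + r := by
        have : N / M < M + r + 1 := Nat.div_lt_of_lt_mul hlt
        omega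
      have hmod : N / M % (M + 1) = (N % M + 1) % (M + 1) := by
        have h2 : (N / M) + (N + 1) = (M + 1) * (N / M) + (N % M + 1) := by
          conv_lhs => rw [← hNd]
          have e : (M * (N / M) + N % M) / M = N / M := by rw [hNd]
          rw [e]
          ring
        have h3 : ((N / M) + (N + 1)) % (M + 1) = (N / M) % (M + 1) := by
          rw [hm, Nat.add_mul_mod_self_left]
        have h4 : ((M + 1) * (N / M) + (N % M + 1)) % (M + 1) = (N % M + 1) % (M + 1) := by
          rw [Nat.mul_add_mod]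
        rw [← h3, h2, h4]
      have hw := wit_of_C hM hM30 hdM (by omega) hky hmod
      rw [hNd] at hw
      exact false_of_wit hD (by omega) hw

end Pool.Agent.SteinerTits
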