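import Mathlib
import Pool.Agent.SteinerTits.Basic

/-! The derived Steiner system. -/

namespace Pool.Agent.SteinerTits

/-- Adding the last point to a set of the other points. -/
def addLast {n : ℕ} (b : Finset (Fin n)) : Finset (Fin (n + 1)) :=
  insert (Fin.last n) (b.map Fin.castSuccEmb)

theorem last_notMem_map {n : ℕ} (b : Finset (Fin n)) :
    Fin.last n ∉ b.map Fin.castSuccEmb := by
  intro h
  rw [Finset.mem_map] at h
  obtain ⟨i, -, hi⟩ := h
  exact absurd hi (Fin.castSucc_lt_last i).ne

theorem card_addLast {n : ℕ} (b : Finset (Fin n)) : (addLast b).card = b.card + 1 := by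
  rw [addLast, Finset.card_insert_of_notMem (last_notMem_map b), Finset.card_map]

theorem castSucc_mem_addLast {n : ℕ} (b : Finset (Fin n)) (i : Fin n) :
    i.castSucc ∈ addLast b ↔ i ∈ b := by
  rw [addLast, Finset.mem_insert]
  constructor
  · rintro (h | h)
    · exact absurd h (Fin.castSucc_lt_last i).ne
    · rw [Finset.mem_map] at h
      obtain ⟨j, hj, hji⟩ := h
      have : j = i := Fin.castSucc_injective n hji
      rwa [← this]
  · intro h
    right
    rw [Finset.mem_map]
    exact ⟨i, h, rfl⟩

theorem addLast_subset {n : ℕ} {a b : Finset (Fin n)} : addLast a ⊆ addLast b ↔ a ⊆ b := by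
  constructor
  · intro h i hi
    exact (castSucc_mem_addLast b i).1 (h ((castSucc_mem_addLast a i).2 hi))
  · intro h
    exact Finset.insert_subset_insert _ (Finset.map_subset_map.2 h)

theorem addLast_inj {n : ℕ} {a b : Finset (Fin n)} (h : addLast a = addLast b) : a = b :=
  Finset.Subset.antisymm (addLast_subset.1 h.le) (addLast_subset.1 h.ge)

theorem exists_addLast {n : ℕ} {b : Finset (Fin (n + 1))} (h : Fin.last n ∈ b) :
    ∃ a, addLast a = b := by
  classical
  refine ⟨Finset.univ.filter (fun i => i.castSucc ∈ b), ?_⟩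
  ext i
  rcases Fin.eq_castSucc_or_eq_last i with ⟨j, rfl⟩ | rfl
  · rw [castSucc_mem_addLast]
    simp
  · simp only [h, iff_true]
    exact Finset.mem_insert_self _ _

theorem IsSteiner.derived {n q r : ℕ} {B : Finset (Finset (Fin (n + 1)))}
    (h : IsSteiner (q + 1) (r + 1) B) :
    ∃ B' : Finset (Finset (Fin n)), IsSteiner q r B' := by
  classical
  refine ⟨Finset.univ.filter (fun b => addLast b ∈ B), ?_, ?_⟩
  · intro b hb
    rw [Finset.mem_filter] at hb
    have := h.1 _ hb.2
    rw [card_addLast] at this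
    omega
  · intro T hT
    obtain ⟨b, ⟨hb, hTb⟩, hbu⟩ := h.2 (addLast T) (by rw [card_addLast, hT])
    obtain ⟨a, rfl⟩ := exists_addLast (hTb (Finset.mem_insert_self _ _))
    refine ⟨a, ⟨?_, addLast_subset.1 hTb⟩, ?_⟩
    · rw [Finset.mem_filter]
      exact ⟨Finset.mem_univ _, hb⟩
    · rintro c ⟨hc, hTc⟩
      rw [Finset.mem_filter] at hc
      exact addLast_inj (hbu _ ⟨hc.2, addLast_subset.2 hTc⟩)

end Pool.Agent.SteinerTits
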