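import Mathlib
import Pool.Agent.SteinerTits.Basic

/-! For even `r`, a Steiner system `S(n,q,r)` has `n ≥ (r+2)(q-r+1) - 1`. -/

namespace Pool.Agent.SteinerTits

/-- For even `r`, a Steiner system `S(n,q,r)` with `r < q < n` has `(r+2)(q-r+1) ≤ n+1`. -/
theorem IsSteiner.even_bound {n q r : ℕ} {B : Finset (Finset (Fin n))} (h : IsSteiner q r B)
    (hreven : r % 2 = 0) (hr : 2 ≤ r) (hrq : r < q) (hqn : q < n) :
    (r + 2) * (q - r + 1) ≤ n + 1 := by
  classical
  obtain ⟨R0, -, hR0⟩ := Finset.exists_subset_card_eq (s := (Finset.univ : Finset (Fin n)))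
    (n := r) (by simp; omega)
  obtain ⟨b, ⟨hb, hRb⟩, hbu⟩ := h.2 R0 hR0
  have hbcard := h.1 b hb
  obtain ⟨x, hx⟩ : ∃ x, x ∉ b := by
    by_contra hcon
    push Not at hcon
    have : b = Finset.univ := Finset.eq_univ_iff_forall.2 hcon
    rw [this] at hbcard
    simp at hbcard
    omega
  obtain ⟨J, hJb, hJ⟩ := Finset.exists_subset_card_eq (s := b) (n := r + 1) (by omega)
  have hxJ : x ∉ J := fun hh => hx (hJb hh)
  have hJP : ∀ P ∈ J.powersetCard 2, (J \ P).card = r - 1 := by
    intro P hP
    rw [Finset.mem_powersetCard] at hP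
    rw [Finset.card_sdiff_of_subset hP.1, hJ, hP.2]
    omega
  have hRP : ∀ P ∈ J.powersetCard 2, (insert x (J \ P)).card = r := by
    intro P hP
    rw [Finset.card_insert_of_notMem (fun hh => hxJ (Finset.mem_sdiff.1 hh).1), hJP P hP]
    omega
  have hex : ∀ P ∈ J.powersetCard 2, ∃ c, c ∈ B ∧ insert x (J \ P) ⊆ c := by
    intro P hP
    obtain ⟨c, hc, -⟩ := h.2 _ (hRP P hP)
    exact ⟨c, hc⟩
  choose! g hgB hgS using hex
  have hxg : ∀ P ∈ J.powersetCard 2, x ∈ g P := fun P hP =>
    hgS P hP (Finset.mem_insert_self _ _)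
  have hJg : ∀ P ∈ J.powersetCard 2, J \ P ⊆ g P := fun P hP =>
    (Finset.subset_insert _ _).trans (hgS P hP)
  have hgb : ∀ P ∈ J.powersetCard 2, b ∩ g P = J \ P := by
    intro P hP
    symm
    apply Finset.eq_of_subset_of_card_le
    · intro z hz
      exact Finset.mem_inter.2 ⟨hJb (Finset.mem_sdiff.1 hz).1, hJg P hP hz⟩
    · rw [hJP P hP]
      by_contra hcon
      push Not at hcon
      obtain ⟨R, hRs, hRc⟩ := Finset.exists_subset_card_eq (s := b ∩ g P) (n := r) (by omega)
      have : b = g P := (h.2 R hRc).unique ⟨hb, hRs.trans Finset.inter_subset_left⟩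
        ⟨hgB P hP, hRs.trans Finset.inter_subset_right⟩
      exact hx (this ▸ hxg P hP)
  set S := insert x b with hSdef
  have hS : S.card = q + 1 := by rw [hSdef, Finset.card_insert_of_notMem hx, hbcard]
  have hgS' : ∀ P ∈ J.powersetCard 2, S ∩ g P = insert x (J \ P) := by
    intro P hP
    rw [hSdef, Finset.insert_inter_of_mem (hxg P hP), hgb P hP]
  have hgsz : ∀ P ∈ J.powersetCard 2, (g P \ S).card = q - r := by
    intro P hP
    have := Finset.card_sdiff_add_card_inter (g P) S
    rw [Finset.inter_comm, hgS' P hP, hRP P hP, h.1 _ (hgB P hP)] at this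
    omega
  have hpd : ∀ z ∉ S, ∀ P ∈ J.powersetCard 2, ∀ Q ∈ J.powersetCard 2, z ∈ g P → z ∈ g Q →
      P ≠ Q → Disjoint P Q := by
    intro z hz P hP Q hQ hzP hzQ hPQ
    by_contra hnd
    apply hPQ
    rw [Finset.not_disjoint_iff] at hnd
    obtain ⟨a, haP, haQ⟩ := hnd
    have hPm := hP
    have hQm := hQ
    rw [Finset.mem_powersetCard] at hPm hQm
    have hun : (P ∪ Q).card ≤ 3 := by
      have h1 := Finset.card_union_add_card_inter P Q
      have h2 : 1 ≤ (P ∩ Q).card := Finset.card_pos.2 ⟨a, Finset.mem_inter.2 ⟨haP, haQ⟩⟩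
      omega
    have hsub : P ∪ Q ⊆ J := Finset.union_subset hPm.1 hQm.1
    have hc1 : r - 2 ≤ (J \ (P ∪ Q)).card := by
      rw [Finset.card_sdiff_of_subset hsub, hJ]
      omega
    obtain ⟨W, hWs, hWc⟩ := Finset.exists_subset_card_eq hc1
    have hxW : x ∉ W := fun hh => hxJ (Finset.mem_sdiff.1 (hWs hh)).1
    have hzW : z ∉ insert x W := by
      intro hh
      rcases Finset.mem_insert.1 hh with rfl | hh
      · exact hz (Finset.mem_insert_self _ _)
      · exact hz (Finset.mem_insert_of_mem (hJb (Finset.mem_sdiff.1 (hWs hh)).1))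
    have hRc : (insert z (insert x W)).card = r := by
      rw [Finset.card_insert_of_notMem hzW, Finset.card_insert_of_notMem hxW, hWc]
      omega
    have hR1 : insert z (insert x W) ⊆ g P := by
      intro v hv
      rcases Finset.mem_insert.1 hv with rfl | hv
      · exact hzP
      rcases Finset.mem_insert.1 hv with rfl | hv
      · exact hxg P hP
      · apply hJg P hP
        have := Finset.mem_sdiff.1 (hWs hv)
        exact Finset.mem_sdiff.2 ⟨this.1, fun hh => this.2 (Finset.mem_union_left _ hh)⟩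
    have hR2 : insert z (insert x W) ⊆ g Q := by
      intro v hv
      rcases Finset.mem_insert.1 hv with rfl | hv
      · exact hzQ
      rcases Finset.mem_insert.1 hv with rfl | hv
      · exact hxg Q hQ
      · apply hJg Q hQ
        have := Finset.mem_sdiff.1 (hWs hv)
        exact Finset.mem_sdiff.2 ⟨this.1, fun hh => this.2 (Finset.mem_union_right _ hh)⟩
    have heq : g P = g Q := (h.2 _ hRc).unique ⟨hgB P hP, hR1⟩ ⟨hgB Q hQ, hR2⟩
    have h3 : J \ P = J \ Q := by rw [← hgb P hP, ← hgb Q hQ, heq]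
    have h4 : J \ (J \ P) = J \ (J \ Q) := by rw [h3]
    rwa [Finset.sdiff_sdiff_eq_self hPm.1, Finset.sdiff_sdiff_eq_self hQm.1] at h4
  have hcount : ∀ z ∈ (Finset.univ \ S : Finset (Fin n)),
      ((J.powersetCard 2).filter (fun P => z ∈ g P)).card ≤ r / 2 := by
    intro z hz
    have hz' : z ∉ S := (Finset.mem_sdiff.1 hz).2
    set F := (J.powersetCard 2).filter (fun P => z ∈ g P) with hF
    have h1 : (F.biUnion id).card = ∑ P ∈ F, P.card := by
      apply Finset.card_biUnion
      intro P hP Q hQ hPQ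
      rw [Finset.mem_coe, Finset.mem_filter] at hP hQ
      exact hpd z hz' P hP.1 Q hQ.1 hP.2 hQ.2 hPQ
    have h2 : ∑ P ∈ F, P.card = 2 * F.card := by
      rw [Finset.sum_congr rfl (g := fun _ => 2), Finset.sum_const, smul_eq_mul, mul_comm]
      intro P hP
      rw [hF, Finset.mem_filter, Finset.mem_powersetCard] at hP
      exact hP.1.2
    have h3 : (F.biUnion id).card ≤ r + 1 := by
      rw [← hJ]
      apply Finset.card_le_card
      intro v hv
      rw [Finset.mem_biUnion] at hv
      obtain ⟨P, hP, hvP⟩ := hv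
      rw [hF, Finset.mem_filter, Finset.mem_powersetCard] at hP
      exact hP.1.1 hvP
    omega
  have hdc : ∑ P ∈ J.powersetCard 2, (g P \ S).card
      = ∑ z ∈ (Finset.univ \ S : Finset (Fin n)),
        ((J.powersetCard 2).filter (fun P => z ∈ g P)).card := by
    have h1 : ∀ P ∈ J.powersetCard 2, (g P \ S).card
        = ∑ z ∈ (Finset.univ \ S : Finset (Fin n)), if z ∈ g P then 1 else 0 := by
      intro P _
      rw [← Finset.card_filter]
      congr 1
      ext z
      simp only [Finset.mem_sdiff, Finset.mem_filter, Finset.mem_univ, true_and]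
      tauto
    rw [Finset.sum_congr rfl h1, Finset.sum_comm]
    apply Finset.sum_congr rfl
    intro z _
    rw [Finset.card_filter]
  have hL : ∑ P ∈ J.powersetCard 2, (g P \ S).card = (r + 1).choose 2 * (q - r) := by
    rw [Finset.sum_congr rfl hgsz, Finset.sum_const, Finset.card_powersetCard, hJ, smul_eq_mul]
  have hR : ∑ z ∈ (Finset.univ \ S : Finset (Fin n)),
        ((J.powersetCard 2).filter (fun P => z ∈ g P)).card ≤ (n - (q + 1)) * (r / 2) := by
    calc _ ≤ ∑ z ∈ (Finset.univ \ S : Finset (Fin n)), r / 2 := Finset.sum_le_sum hcount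
      _ = _ := by
        rw [Finset.sum_const, Finset.card_sdiff_of_subset (Finset.subset_univ _),
          Finset.card_univ, Fintype.card_fin, hS, smul_eq_mul]
  have hfin : (r + 1).choose 2 * (q - r) ≤ (n - (q + 1)) * (r / 2) := by
    rw [← hL, hdc]; exact hR
  have hch : (r + 1).choose 2 = (r + 1) * (r / 2) := by
    rw [Nat.choose_two_right]
    obtain ⟨k, hk⟩ : ∃ k, r = 2 * k := ⟨r / 2, by omega⟩
    subst hk
    have e1 : (2 * k + 1) * (2 * k + 1 - 1) = 2 * ((2 * k + 1) * k) := by
      have : 2 * k + 1 - 1 = 2 * k := by omega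
      rw [this]; ring
    rw [e1, Nat.mul_div_cancel_left _ (by norm_num)]
    congr 1
    omega
  rw [hch] at hfin
  have hpos : 0 < r / 2 := by omega
  have hfin2 : (r + 1) * (q - r) ≤ n - (q + 1) := by
    have : ((r + 1) * (q - r)) * (r / 2) ≤ (n - (q + 1)) * (r / 2) := by
      calc _ = (r + 1) * (r / 2) * (q - r) := by ring
        _ ≤ _ := hfin
    exact Nat.le_of_mul_le_mul_right this hpos
  have e2 : (r + 2) * (q - r + 1) = (r + 1) * (q - r) + (q - r) + (r + 2) := by ring
  omega

end Pool.Agent.SteinerTits
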