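import Mathlib
import Pool.Agent.SteinerTits.Basic

/-! The Fisher-type bound `(q-r+1)(q-r+2) ≤ n-r+1` and the non-existence of `S(66,10,4)`. -/

namespace Pool.Agent.SteinerTits

/-- A block and a point outside it. -/
theorem IsSteiner.exists_block {n q r : ℕ} {B : Finset (Finset (Fin n))} (h : IsSteiner q r B)
    (hrq : r ≤ q) (hqn : q < n) : ∃ b ∈ B, ∃ x, x ∉ b := by
  obtain ⟨R0, -, hR0⟩ := Finset.exists_subset_card_eq (s := (Finset.univ : Finset (Fin n)))
    (n := r) (by simp; omega)
  obtain ⟨b, ⟨hb, hRb⟩, hbu⟩ := h.2 R0 hR0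
  have hbcard := h.1 b hb
  refine ⟨b, hb, ?_⟩
  by_contra hcon
  push Not at hcon
  have : b = Finset.univ := Finset.eq_univ_iff_forall.2 hcon
  rw [this] at hbcard
  simp at hbcard
  omega

/-- The blocks through a point `x` off the block `b` that meet `b` in `r-1` points. -/
theorem IsSteiner.traces {n q r : ℕ} {B : Finset (Finset (Fin n))} (h : IsSteiner q r B)
    (hr : 2 ≤ r) (hrq : r ≤ q) {b : Finset (Fin n)} (hb : b ∈ B) {x : Fin n} (hx : x ∉ b) :
    ∃ g : Finset (Fin n) → Finset (Fin n),
      (∀ K ∈ b.powersetCard (r - 1), g K ∈ B) ∧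
      (∀ K ∈ b.powersetCard (r - 1), x ∈ g K) ∧
      (∀ K ∈ b.powersetCard (r - 1), b ∩ g K = K) ∧
      (∀ K ∈ b.powersetCard (r - 1), (g K \ insert x b).card = q - r) := by
  classical
  have hbcard := h.1 b hb
  have hRK : ∀ K ∈ b.powersetCard (r - 1), (insert x K).card = r := by
    intro K hK
    rw [Finset.mem_powersetCard] at hK
    rw [Finset.card_insert_of_notMem (fun hh => hx (hK.1 hh)), hK.2]
    omega
  have hex : ∀ K ∈ b.powersetCard (r - 1), ∃ c, c ∈ B ∧ insert x K ⊆ c := by
    intro K hK
    obtain ⟨c, hc, -⟩ := h.2 _ (hRK K hK)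
    exact ⟨c, hc⟩
  choose! g hgB hgS using hex
  have hxg : ∀ K ∈ b.powersetCard (r - 1), x ∈ g K := fun K hK =>
    hgS K hK (Finset.mem_insert_self _ _)
  have hKg : ∀ K ∈ b.powersetCard (r - 1), K ⊆ g K := fun K hK =>
    (Finset.subset_insert _ _).trans (hgS K hK)
  have hgb : ∀ K ∈ b.powersetCard (r - 1), b ∩ g K = K := by
    intro K hK
    symm
    have hK' := hK
    rw [Finset.mem_powersetCard] at hK'
    apply Finset.eq_of_subset_of_card_le
    · intro z hz
      exact Finset.mem_inter.2 ⟨hK'.1 hz, hKg K hK hz⟩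
    · rw [hK'.2]
      by_contra hcon
      push Not at hcon
      obtain ⟨R, hRs, hRc⟩ := Finset.exists_subset_card_eq (s := b ∩ g K) (n := r) (by omega)
      have : b = g K := (h.2 R hRc).unique ⟨hb, hRs.trans Finset.inter_subset_left⟩
        ⟨hgB K hK, hRs.trans Finset.inter_subset_right⟩
      exact hx (this ▸ hxg K hK)
  refine ⟨g, hgB, hxg, hgb, ?_⟩
  intro K hK
  have h1 : insert x b ∩ g K = insert x K := by
    rw [Finset.insert_inter_of_mem (hxg K hK), hgb K hK]
  have := Finset.card_sdiff_add_card_inter (g K) (insert x b)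
  rw [Finset.inter_comm, h1, hRK K hK, h.1 _ (hgB K hK)] at this
  omega

/-- The Fisher-type bound (Cameron's bound). -/
theorem IsSteiner.fisher {n q r : ℕ} {B : Finset (Finset (Fin n))} (h : IsSteiner q r B)
    (hr : 2 ≤ r) (hrq : r < q) (hqn : q < n) :
    (q - r + 1) * (q - r + 2) ≤ n - r + 1 := by
  classical
  obtain ⟨b, hb, x, hx⟩ := h.exists_block hrq.le hqn
  obtain ⟨g, hgB, hxg, hgb, hgc⟩ := h.traces hr hrq.le hb hx
  have hbcard := h.1 b hb
  obtain ⟨I, hIb, hI⟩ := Finset.exists_subset_card_eq (s := b) (n := r - 2) (by omega)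
  -- the sets I ∪ {y}
  set Y := b \ I with hY
  have hYc : Y.card = q - r + 2 := by
    rw [hY, Finset.card_sdiff_of_subset hIb, hbcard, hI]; omega
  have hK : ∀ y ∈ Y, insert y I ∈ b.powersetCard (r - 1) := by
    intro y hy
    rw [hY, Finset.mem_sdiff] at hy
    rw [Finset.mem_powersetCard, Finset.card_insert_of_notMem hy.2, hI]
    refine ⟨?_, by omega⟩
    intro z hz
    rcases Finset.mem_insert.1 hz with rfl | hz
    · exact hy.1
    · exact hIb hz
  have hdisj : ∀ y ∈ Y, ∀ z ∈ Y, y ≠ z →
      Disjoint (g (insert y I) \ insert x b) (g (insert z I) \ insert x b) := by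
    intro y hy z hz hyz
    rw [Finset.disjoint_left]
    intro w hw1 hw2
    rw [Finset.mem_sdiff] at hw1 hw2
    apply hyz
    have hxI : x ∉ I := fun hh => hx (hIb hh)
    have hwI : w ∉ insert x I := by
      intro hh
      rcases Finset.mem_insert.1 hh with rfl | hh
      · exact hw1.2 (Finset.mem_insert_self _ _)
      · exact hw1.2 (Finset.mem_insert_of_mem (hIb hh))
    have hRc : (insert w (insert x I)).card = r := by
      rw [Finset.card_insert_of_notMem hwI, Finset.card_insert_of_notMem hxI, hI]
      omega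
    have key : ∀ v ∈ Y, w ∈ g (insert v I) → insert w (insert x I) ⊆ g (insert v I) := by
      intro v hv hwv u hu
      rcases Finset.mem_insert.1 hu with rfl | hu
      · exact hwv
      rcases Finset.mem_insert.1 hu with rfl | hu
      · exact hxg _ (hK v hv)
      · have : u ∈ b ∩ g (insert v I) := by
          rw [hgb _ (hK v hv)]
          exact Finset.mem_insert_of_mem hu
        exact (Finset.mem_inter.1 this).2
    have heq : g (insert y I) = g (insert z I) := (h.2 _ hRc).unique
      ⟨hgB _ (hK y hy), key y hy hw1.1⟩ ⟨hgB _ (hK z hz), key z hz hw2.1⟩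
    have h2 : insert y I = insert z I := by rw [← hgb _ (hK y hy), ← hgb _ (hK z hz), heq]
    have h3 : y ∈ insert z I := by rw [← h2]; exact Finset.mem_insert_self _ _
    rcases Finset.mem_insert.1 h3 with h4 | h4
    · exact h4
    · rw [hY, Finset.mem_sdiff] at hy
      exact absurd h4 hy.2
  have hcard : (Y.biUnion (fun y => g (insert y I) \ insert x b)).card
      = (q - r + 2) * (q - r) := by
    rw [Finset.card_biUnion (fun y hy z hz hyz => hdisj y hy z hz hyz),
      Finset.sum_congr rfl (fun y hy => hgc _ (hK y hy)), Finset.sum_const, hYc, smul_eq_mul]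
  have hd : Disjoint (insert x b) (Y.biUnion (fun y => g (insert y I) \ insert x b)) := by
    rw [Finset.disjoint_left]
    intro w hw hw2
    rw [Finset.mem_biUnion] at hw2
    obtain ⟨y, -, hy⟩ := hw2
    exact (Finset.mem_sdiff.1 hy).2 hw
  have hle := Finset.card_le_univ (insert x b ∪ Y.biUnion (fun y => g (insert y I) \ insert x b))
  rw [Finset.card_union_of_disjoint hd, hcard, Finset.card_insert_of_notMem hx, hbcard,
    Fintype.card_fin] at hle
  have e : (q - r + 1) * (q - r + 2) = (q - r + 2) * (q - r) + (q - r) + 2 := by ring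
  omega

/-- There is no Steiner system `S(66,10,4)`. -/
theorem no_66_10_4 (B : Finset (Finset (Fin 66))) : ¬ IsSteiner 10 4 B := by
  classical
  intro h
  obtain ⟨b, hb, x, hx⟩ := h.exists_block (by norm_num) (by norm_num)
  obtain ⟨g, hgB, hxg, hgb, hgc⟩ := h.traces (by norm_num) (by norm_num) hb hx
  norm_num at hgB hxg hgb hgc
  have hbcard := h.1 b hb
  set S := insert x b with hS
  have hSc : S.card = 11 := by rw [hS, Finset.card_insert_of_notMem hx, hbcard]
  -- two traces through an outside point share at most one point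
  have hpair : ∀ z ∉ S, ∀ K ∈ b.powersetCard 3, ∀ L ∈ b.powersetCard 3, z ∈ g K → z ∈ g L →
      2 ≤ (K ∩ L).card → K = L := by
    intro z hz K hK L hL hzK hzL hKL
    rw [Finset.mem_powersetCard] at hK hL
    obtain ⟨I, hIs, hIc⟩ := Finset.exists_subset_card_eq hKL
    have hIb : I ⊆ b := (hIs.trans Finset.inter_subset_left).trans hK.1
    have hxI : x ∉ I := fun hh => hx (hIb hh)
    have hzI : z ∉ insert x I := by
      intro hh
      rcases Finset.mem_insert.1 hh with rfl | hh
      · exact hz (Finset.mem_insert_self _ _)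
      · exact hz (Finset.mem_insert_of_mem (hIb hh))
    have hRc : (insert z (insert x I)).card = 4 := by
      rw [Finset.card_insert_of_notMem hzI, Finset.card_insert_of_notMem hxI, hIc]
    have hK' : ∀ L, L ⊆ b → L.card = 3 → I ⊆ L → z ∈ g L → insert z (insert x I) ⊆ g L := by
      intro L hLb hLc hIL hzL u hu
      rcases Finset.mem_insert.1 hu with rfl | hu
      · exact hzL
      rcases Finset.mem_insert.1 hu with rfl | hu
      · exact hxg L hLb hLc
      · have : u ∈ b ∩ g L := by rw [hgb L hLb hLc]; exact hIL hu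
        exact (Finset.mem_inter.1 this).2
    have heq : g K = g L := (h.2 _ hRc).unique
      ⟨hgB K hK.1 hK.2, hK' K hK.1 hK.2 (hIs.trans Finset.inter_subset_left) hzK⟩
      ⟨hgB L hL.1 hL.2, hK' L hL.1 hL.2 (hIs.trans Finset.inter_subset_right) hzL⟩
    rw [← hgb K hK.1 hK.2, ← hgb L hL.1 hL.2, heq]
  have hcount : ∀ z ∈ (Finset.univ \ S : Finset (Fin 66)),
      ((b.powersetCard 3).filter (fun K => z ∈ g K)).card ≤ 13 := by
    intro z hz
    have hz' : z ∉ S := (Finset.mem_sdiff.1 hz).2
    set F := (b.powersetCard 3).filter (fun K => z ∈ g K) with hF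
    have hFm : ∀ K ∈ F, K ⊆ b ∧ K.card = 3 ∧ z ∈ g K := by
      intro K hK
      rw [hF, Finset.mem_filter, Finset.mem_powersetCard] at hK
      exact ⟨hK.1.1, hK.1.2, hK.2⟩
    -- each point lies on at most 4 members
    have hdeg : ∀ p ∈ b, (F.filter (fun K => p ∈ K)).card ≤ 4 := by
      intro p hp
      have h1 : ((F.filter (fun K => p ∈ K)).biUnion (fun K => K.erase p)).card
          = ∑ K ∈ F.filter (fun K => p ∈ K), (K.erase p).card := by
        apply Finset.card_biUnion
        intro K hK L hL hKL
        rw [Finset.mem_coe, Finset.mem_filter] at hK hL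
        rw [Function.onFun, Finset.disjoint_left]
        intro w hw1 hw2
        apply hKL
        obtain ⟨hKb, hKc, hKz⟩ := hFm K hK.1
        obtain ⟨hLb, hLc, hLz⟩ := hFm L hL.1
        apply hpair z hz' K (Finset.mem_powersetCard.2 ⟨hKb, hKc⟩) L
          (Finset.mem_powersetCard.2 ⟨hLb, hLc⟩) hKz hLz
        have : ({p, w} : Finset (Fin 66)) ⊆ K ∩ L := by
          intro u hu
          rw [Finset.mem_insert, Finset.mem_singleton] at hu
          rcases hu with rfl | rfl
          · exact Finset.mem_inter.2 ⟨hK.2, hL.2⟩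
          · exact Finset.mem_inter.2 ⟨Finset.mem_of_mem_erase hw1, Finset.mem_of_mem_erase hw2⟩
        have h2 := Finset.card_le_card this
        rwa [Finset.card_pair (Finset.ne_of_mem_erase hw1).symm] at h2
      have h2 : ∑ K ∈ F.filter (fun K => p ∈ K), (K.erase p).card
          = 2 * (F.filter (fun K => p ∈ K)).card := by
        rw [Finset.sum_congr rfl (g := fun _ => 2), Finset.sum_const, smul_eq_mul, mul_comm]
        intro K hK
        rw [Finset.mem_filter] at hK
        rw [Finset.card_erase_of_mem hK.2, (hFm K hK.1).2.1]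
      have h3 : ((F.filter (fun K => p ∈ K)).biUnion (fun K => K.erase p)).card ≤ 9 := by
        have h4 : (F.filter (fun K => p ∈ K)).biUnion (fun K => K.erase p) ⊆ b.erase p := by
          intro w hw
          rw [Finset.mem_biUnion] at hw
          obtain ⟨K, hK, hwK⟩ := hw
          rw [Finset.mem_filter] at hK
          exact Finset.mem_erase.2 ⟨Finset.ne_of_mem_erase hwK,
            (hFm K hK.1).1 (Finset.mem_of_mem_erase hwK)⟩
        have h5 := Finset.card_le_card h4
        rw [Finset.card_erase_of_mem hp, hbcard] at h5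
        exact h5
      omega
    have h6 : ∑ K ∈ F, K.card = 3 * F.card := by
      rw [Finset.sum_congr rfl (g := fun _ => 3), Finset.sum_const, smul_eq_mul, mul_comm]
      intro K hK
      exact (hFm K hK).2.1
    have h7 : ∑ K ∈ F, K.card = ∑ p ∈ b, (F.filter (fun K => p ∈ K)).card := by
      have h8 : ∀ K ∈ F, K.card = ∑ p ∈ b, if p ∈ K then 1 else 0 := by
        intro K hK
        rw [← Finset.card_filter, Finset.filter_mem_eq_inter,
          Finset.inter_eq_right.2 (hFm K hK).1]
      rw [Finset.sum_congr rfl h8, Finset.sum_comm]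
      apply Finset.sum_congr rfl
      intro p _
      rw [Finset.card_filter]
    have h9 : ∑ p ∈ b, (F.filter (fun K => p ∈ K)).card ≤ ∑ p ∈ b, 4 := Finset.sum_le_sum hdeg
    rw [Finset.sum_const, hbcard, smul_eq_mul, ← h7, h6] at h9
    omega
  have hdc : ∑ K ∈ b.powersetCard 3, (g K \ S).card
      = ∑ z ∈ (Finset.univ \ S : Finset (Fin 66)),
        ((b.powersetCard 3).filter (fun K => z ∈ g K)).card := by
    have h1 : ∀ K ∈ b.powersetCard 3, (g K \ S).card
        = ∑ z ∈ (Finset.univ \ S : Finset (Fin 66)), if z ∈ g K then 1 else 0 := by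
      intro K _
      rw [← Finset.card_filter]
      congr 1
      ext z
      simp only [Finset.mem_sdiff, Finset.mem_filter, Finset.mem_univ, true_and]
      tauto
    rw [Finset.sum_congr rfl h1, Finset.sum_comm]
    apply Finset.sum_congr rfl
    intro z _
    rw [Finset.card_filter]
  have hL : ∑ K ∈ b.powersetCard 3, (g K \ S).card = 720 := by
    rw [Finset.sum_congr rfl (g := fun _ => 6), Finset.sum_const, Finset.card_powersetCard,
      hbcard, smul_eq_mul]
    · rfl
    · intro K hK
      rw [Finset.mem_powersetCard] at hK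
      exact hgc K hK.1 hK.2
  have hR : ∑ z ∈ (Finset.univ \ S : Finset (Fin 66)),
        ((b.powersetCard 3).filter (fun K => z ∈ g K)).card ≤ 55 * 13 := by
    calc _ ≤ ∑ z ∈ (Finset.univ \ S : Finset (Fin 66)), 13 := Finset.sum_le_sum hcount
      _ = _ := by
        rw [Finset.sum_const, Finset.card_sdiff_of_subset (Finset.subset_univ _),
          Finset.card_univ, Fintype.card_fin, hSc, smul_eq_mul]
  rw [← hdc, hL] at hR
  norm_num at hR

end Pool.Agent.SteinerTits
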