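import Mathlib
import Pool.Agent.SteinerTits.Basic

/-! Tits configuration in a Steiner system and the gap theorem above Tits' bound for odd `r`. -/

namespace Pool.Agent.SteinerTits

theorem IsSteiner.titsConfig {n q r : ℕ} {B : Finset (Finset (Fin n))} (h : IsSteiner q r B)
    (hr : 1 ≤ r) (hrq : r ≤ q) (hqn : q < n) :
    ∃ (T : Finset (Fin n)) (f : Fin n → Finset (Fin n)), T.card = r + 1 ∧
      (∀ c ∈ B, ¬ T ⊆ c) ∧ (∀ y ∈ T, f y ∈ B) ∧ (∀ y ∈ T, T.erase y ⊆ f y) ∧
      (T ∪ T.biUnion (fun y => f y \ T)).card = (r + 1) * (q - r + 1) := by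
  classical
  obtain ⟨R0, -, hR0⟩ := Finset.exists_subset_card_eq (s := (Finset.univ : Finset (Fin n)))
    (n := r) (by simp; omega)
  obtain ⟨b, ⟨hb, hRb⟩, hbu⟩ := h.2 R0 hR0
  have hbcard := h.1 b hb
  obtain ⟨x, hx⟩ : ∃ x, x ∉ b := by
    by_contra hcon
    push Not at hcon
    have : b = Finset.univ := Finset.eq_univ_iff_forall.2 hcon
    rw [this] at hbcard
    simp at hbcard
    omega
  set T := insert x R0 with hTdef
  have hxR : x ∉ R0 := fun hh => hx (hRb hh)
  have hT : T.card = r + 1 := by rw [hTdef, Finset.card_insert_of_notMem hxR, hR0]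
  have hTn : ∀ c ∈ B, ¬ T ⊆ c := by
    intro c hc hTc
    have : c = b := hbu c ⟨hc, (Finset.subset_insert _ _).trans hTc⟩
    subst this
    exact hx (hTc (Finset.mem_insert_self _ _))
  have hex : ∀ y ∈ T, ∃ c, c ∈ B ∧ T.erase y ⊆ c := by
    intro y hy
    obtain ⟨c, hc, -⟩ := h.2 (T.erase y) (by rw [Finset.card_erase_of_mem hy, hT]; omega)
    exact ⟨c, hc⟩
  choose! f hfB hfT using hex
  have hyf : ∀ y ∈ T, y ∉ f y := by
    intro y hy hyy
    apply hTn (f y) (hfB y hy)
    intro z hz
    by_cases hzy : z = y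
    · rw [hzy]; exact hyy
    · exact hfT y hy (Finset.mem_erase.2 ⟨hzy, hz⟩)
  have hsz : ∀ y ∈ T, (f y \ T).card = q - r := by
    intro y hy
    have : f y \ T = f y \ T.erase y := by
      ext z
      simp only [Finset.mem_sdiff, Finset.mem_erase, ne_eq, not_and]
      constructor
      · rintro ⟨h1, h2⟩
        exact ⟨h1, fun _ => h2⟩
      · rintro ⟨h1, h2⟩
        refine ⟨h1, ?_⟩
        apply h2
        rintro rfl
        exact hyf z hy h1
    rw [this, Finset.card_sdiff_of_subset (hfT y hy), h.1 _ (hfB y hy),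
      Finset.card_erase_of_mem hy, hT]
    omega
  have hdisj : ∀ y ∈ T, ∀ z ∈ T, y ≠ z → Disjoint (f y \ T) (f z \ T) := by
    intro y hy z hz hyz
    rw [Finset.disjoint_left]
    intro w hwy hwz
    simp only [Finset.mem_sdiff] at hwy hwz
    set R := insert w ((T.erase y).erase z) with hR
    have hzy : z ∈ T.erase y := Finset.mem_erase.2 ⟨hyz.symm, hz⟩
    have hwR : w ∉ (T.erase y).erase z := fun hh =>
      hwy.2 (Finset.mem_of_mem_erase (Finset.mem_of_mem_erase hh))
    have hRc : R.card = r := by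
      rw [hR, Finset.card_insert_of_notMem hwR, Finset.card_erase_of_mem hzy,
        Finset.card_erase_of_mem hy, hT]
      omega
    have h1 : R ⊆ f y := by
      rw [hR]
      intro v hv
      rcases Finset.mem_insert.1 hv with rfl | hv
      · exact hwy.1
      · exact hfT y hy (Finset.mem_of_mem_erase hv)
    have h2 : R ⊆ f z := by
      rw [hR]
      intro v hv
      rcases Finset.mem_insert.1 hv with rfl | hv
      · exact hwz.1
      · apply hfT z hz
        rw [Finset.mem_erase] at hv ⊢
        exact ⟨hv.1, Finset.mem_of_mem_erase hv.2⟩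
    have heq : f y = f z := (h.2 R hRc).unique ⟨hfB y hy, h1⟩ ⟨hfB z hz, h2⟩
    apply hyf y hy
    rw [heq]
    exact hfT z hz (Finset.mem_erase.2 ⟨hyz, hy⟩)
  have hTd : Disjoint T (T.biUnion (fun y => f y \ T)) := by
    rw [Finset.disjoint_left]
    intro w hw hw2
    simp only [Finset.mem_biUnion, Finset.mem_sdiff] at hw2
    obtain ⟨y, -, -, h2⟩ := hw2
    exact h2 hw
  refine ⟨T, f, hT, hTn, hfB, hfT, ?_⟩
  rw [Finset.card_union_of_disjoint hTd, Finset.card_biUnion
    (fun y hy z hz hyz => hdisj y hy z hz hyz), Finset.sum_congr rfl hsz, Finset.sum_const, hT,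
    smul_eq_mul]
  ring

/-- Above Tits' bound, an odd `r` forces the next multiple. -/
theorem IsSteiner.gap {n q r : ℕ} {B : Finset (Finset (Fin n))} (h : IsSteiner q r B)
    (hrodd : r % 2 = 1) (hrq : r ≤ q) (hqn : q < n) (hne : n ≠ (r + 1) * (q - r + 1)) :
    (r + 2) * (q - r + 1) ≤ n := by
  classical
  obtain ⟨T, f, hT, hTn, hfB, hfT, hU⟩ := h.titsConfig (by omega) hrq hqn
  set U := T ∪ T.biUnion (fun y => f y \ T) with hUdef
  have hlt : U.card < n := by
    have := Finset.card_le_univ U
    simp only [Fintype.card_fin] at this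
    omega
  obtain ⟨x, hxU⟩ : ∃ x, x ∉ U := by
    by_contra hcon
    push Not at hcon
    have : U = Finset.univ := Finset.eq_univ_iff_forall.2 hcon
    rw [this] at hlt
    simp at hlt
  have hxT : x ∉ T := fun hh => hxU (Finset.mem_union_left _ hh)
  have hxf : ∀ y ∈ T, x ∉ f y := by
    intro y hy hh
    apply hxU
    apply Finset.mem_union_right
    rw [Finset.mem_biUnion]
    exact ⟨y, hy, Finset.mem_sdiff.2 ⟨hh, hxT⟩⟩
  set S := insert x T with hSdef
  have hS : S.card = r + 2 := by rw [hSdef, Finset.card_insert_of_notMem hxT, hT]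
  -- no block contains `r+1` points of `S`
  have hind : ∀ c ∈ B, (S ∩ c).card ≤ r := by
    intro c hc
    by_contra hcon
    push Not at hcon
    -- S \ c has at most one element
    have h1 : (S \ c).card ≤ 1 := by
      have := Finset.card_sdiff_add_card_inter S c
      omega
    by_cases hxc : x ∈ c
    · -- then some y in T is missing
      have hex : ∃ y ∈ T, y ∉ c := by
        by_contra hh
        push Not at hh
        exact hTn c hc hh
      obtain ⟨y, hyT, hyc⟩ := hex
      have hye : T.erase y ⊆ c := by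
        intro z hz
        by_contra hzc
        have hzT := Finset.mem_of_mem_erase hz
        have hzy := Finset.ne_of_mem_erase hz
        apply hzy
        rw [Finset.card_le_one] at h1
        exact h1 z (Finset.mem_sdiff.2 ⟨Finset.mem_insert_of_mem hzT, hzc⟩) y
          (Finset.mem_sdiff.2 ⟨Finset.mem_insert_of_mem hyT, hyc⟩)
      have hcard : (T.erase y).card = r := by rw [Finset.card_erase_of_mem hyT, hT]; omega
      have : c = f y := (h.2 _ hcard).unique ⟨hc, hye⟩ ⟨hfB y hyT, hfT y hyT⟩
      exact hxf y hyT (this ▸ hxc)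
    · apply hTn c hc
      intro z hz
      by_contra hzc
      rw [Finset.card_le_one] at h1
      have := h1 z (Finset.mem_sdiff.2 ⟨Finset.mem_insert_of_mem hz, hzc⟩) x
        (Finset.mem_sdiff.2 ⟨Finset.mem_insert_self _ _, hxc⟩)
      exact hxT (this ▸ hz)
  have hSP : ∀ P ∈ S.powersetCard 2, (S \ P).card = r := by
    intro P hP
    rw [Finset.mem_powersetCard] at hP
    rw [Finset.card_sdiff_of_subset hP.1, hS, hP.2]
    omega
  have hex : ∀ P ∈ S.powersetCard 2, ∃ c, c ∈ B ∧ S \ P ⊆ c := by
    intro P hP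
    obtain ⟨c, hc, -⟩ := h.2 _ (hSP P hP)
    exact ⟨c, hc⟩
  choose! g hgB hgS using hex
  have hgP : ∀ P ∈ S.powersetCard 2, S ∩ g P = S \ P := by
    intro P hP
    symm
    apply Finset.eq_of_subset_of_card_le
    · intro z hz
      exact Finset.mem_inter.2 ⟨(Finset.mem_sdiff.1 hz).1, hgS P hP hz⟩
    · rw [hSP P hP]
      exact hind _ (hgB P hP)
  have hgsz : ∀ P ∈ S.powersetCard 2, (g P \ S).card = q - r := by
    intro P hP
    have := Finset.card_sdiff_add_card_inter (g P) S
    rw [Finset.inter_comm, hgP P hP, hSP P hP, h.1 _ (hgB P hP)] at this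
    omega
  -- through a point outside `S` the pairs are disjoint
  have hpd : ∀ z ∉ S, ∀ P ∈ S.powersetCard 2, ∀ Q ∈ S.powersetCard 2, z ∈ g P → z ∈ g Q →
      P ≠ Q → Disjoint P Q := by
    intro z hz P hP Q hQ hzP hzQ hPQ
    by_contra hnd
    apply hPQ
    rw [Finset.not_disjoint_iff] at hnd
    obtain ⟨a, haP, haQ⟩ := hnd
    have hPm := hP
    have hQm := hQ
    rw [Finset.mem_powersetCard] at hPm hQm
    have hun : (P ∪ Q).card ≤ 3 := by
      have h1 := Finset.card_union_add_card_inter P Q
      have h2 : 1 ≤ (P ∩ Q).card := Finset.card_pos.2 ⟨a, Finset.mem_inter.2 ⟨haP, haQ⟩⟩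
      omega
    have hsub : P ∪ Q ⊆ S := Finset.union_subset hPm.1 hQm.1
    have hc1 : r - 1 ≤ (S \ (P ∪ Q)).card := by
      rw [Finset.card_sdiff_of_subset hsub, hS]
      omega
    obtain ⟨W, hWs, hWc⟩ := Finset.exists_subset_card_eq hc1
    have hzW : z ∉ W := fun hh => hz (Finset.mem_sdiff.1 (hWs hh)).1
    have hRc : (insert z W).card = r := by
      rw [Finset.card_insert_of_notMem hzW, hWc]
      omega
    have hR1 : insert z W ⊆ g P := by
      intro v hv
      rcases Finset.mem_insert.1 hv with rfl | hv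
      · exact hzP
      · apply hgS P hP
        have := Finset.mem_sdiff.1 (hWs hv)
        exact Finset.mem_sdiff.2 ⟨this.1, fun hh => this.2 (Finset.mem_union_left _ hh)⟩
    have hR2 : insert z W ⊆ g Q := by
      intro v hv
      rcases Finset.mem_insert.1 hv with rfl | hv
      · exact hzQ
      · apply hgS Q hQ
        have := Finset.mem_sdiff.1 (hWs hv)
        exact Finset.mem_sdiff.2 ⟨this.1, fun hh => this.2 (Finset.mem_union_right _ hh)⟩
    have heq : g P = g Q := (h.2 _ hRc).unique ⟨hgB P hP, hR1⟩ ⟨hgB Q hQ, hR2⟩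
    have h3 : S \ P = S \ Q := by rw [← hgP P hP, ← hgP Q hQ, heq]
    have h4 : S \ (S \ P) = S \ (S \ Q) := by rw [h3]
    rwa [Finset.sdiff_sdiff_eq_self hPm.1, Finset.sdiff_sdiff_eq_self hQm.1] at h4
  have hcount : ∀ z ∈ (Finset.univ \ S : Finset (Fin n)),
      ((S.powersetCard 2).filter (fun P => z ∈ g P)).card ≤ (r + 1) / 2 := by
    intro z hz
    have hz' : z ∉ S := (Finset.mem_sdiff.1 hz).2
    set F := (S.powersetCard 2).filter (fun P => z ∈ g P) with hF
    have h1 : (F.biUnion id).card = ∑ P ∈ F, P.card := by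
      apply Finset.card_biUnion
      intro P hP Q hQ hPQ
      rw [Finset.mem_coe, Finset.mem_filter] at hP hQ
      exact hpd z hz' P hP.1 Q hQ.1 hP.2 hQ.2 hPQ
    have h2 : ∑ P ∈ F, P.card = 2 * F.card := by
      rw [Finset.sum_congr rfl (g := fun _ => 2), Finset.sum_const, smul_eq_mul, mul_comm]
      intro P hP
      rw [hF, Finset.mem_filter, Finset.mem_powersetCard] at hP
      exact hP.1.2
    have h3 : (F.biUnion id).card ≤ r + 2 := by
      rw [← hS]
      apply Finset.card_le_card
      intro v hv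
      rw [Finset.mem_biUnion] at hv
      obtain ⟨P, hP, hvP⟩ := hv
      rw [hF, Finset.mem_filter, Finset.mem_powersetCard] at hP
      exact hP.1.1 hvP
    omega
  -- double counting
  have hdc : ∑ P ∈ S.powersetCard 2, (g P \ S).card
      = ∑ z ∈ (Finset.univ \ S : Finset (Fin n)),
        ((S.powersetCard 2).filter (fun P => z ∈ g P)).card := by
    have h1 : ∀ P ∈ S.powersetCard 2, (g P \ S).card
        = ∑ z ∈ (Finset.univ \ S : Finset (Fin n)), if z ∈ g P then 1 else 0 := by
      intro P _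
      rw [← Finset.card_filter]
      congr 1
      ext z
      simp only [Finset.mem_sdiff, Finset.mem_filter, Finset.mem_univ, true_and]
      tauto
    rw [Finset.sum_congr rfl h1, Finset.sum_comm]
    apply Finset.sum_congr rfl
    intro z _
    rw [Finset.card_filter]
  have hL : ∑ P ∈ S.powersetCard 2, (g P \ S).card = (r + 2).choose 2 * (q - r) := by
    rw [Finset.sum_congr rfl hgsz, Finset.sum_const, Finset.card_powersetCard, hS, smul_eq_mul]
  have hR : ∑ z ∈ (Finset.univ \ S : Finset (Fin n)),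
        ((S.powersetCard 2).filter (fun P => z ∈ g P)).card ≤ (n - (r + 2)) * ((r + 1) / 2) := by
    calc _ ≤ ∑ z ∈ (Finset.univ \ S : Finset (Fin n)), (r + 1) / 2 := Finset.sum_le_sum hcount
      _ = _ := by
        rw [Finset.sum_const, Finset.card_sdiff_of_subset (Finset.subset_univ _),
          Finset.card_univ, Fintype.card_fin, hS, smul_eq_mul]
  have hfin : (r + 2).choose 2 * (q - r) ≤ (n - (r + 2)) * ((r + 1) / 2) := by
    rw [← hL, hdc]; exact hR
  have hch : (r + 2).choose 2 = (r + 2) * ((r + 1) / 2) := by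
    rw [Nat.choose_two_right]
    obtain ⟨k, hk⟩ : ∃ k, r = 2 * k + 1 := ⟨r / 2, by omega⟩
    subst hk
    have e1 : (2 * k + 1 + 2) * (2 * k + 1 + 2 - 1) = 2 * ((2 * k + 1 + 2) * (k + 1)) := by
      have : 2 * k + 1 + 2 - 1 = 2 * (k + 1) := by omega
      rw [this]; ring
    rw [e1, Nat.mul_div_cancel_left _ (by norm_num)]
    congr 1
    omega
  rw [hch] at hfin
  have hpos : 0 < (r + 1) / 2 := by omega
  have hfin2 : (r + 2) * (q - r) ≤ n - (r + 2) := by
    have : ((r + 2) * (q - r)) * ((r + 1) / 2) ≤ (n - (r + 2)) * ((r + 1) / 2) := by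
      calc _ = (r + 2) * ((r + 1) / 2) * (q - r) := by ring
        _ ≤ _ := hfin
    exact Nat.le_of_mul_le_mul_right this hpos
  have hSn : r + 2 ≤ n := by
    have := Finset.card_le_univ S
    simp only [Fintype.card_fin] at this
    omega
  have : (r + 2) * (q - r + 1) = (r + 2) * (q - r) + (r + 2) := by ring
  omega

end Pool.Agent.SteinerTits
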