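import Pool.Agent.SteinerTits.Basic

/-! The Witt design S(24,8,5), as the octads of the extended binary Golay code. -/

namespace Pool.Agent.SteinerTits

/-- Generators of the extended binary Golay code, as 24-bit numbers. -/
def gens : List ℕ :=
  [8391395, 8394182, 8399756, 8410904, 8433200, 8477792, 8566976, 8745344, 9102080, 9815552,
    11242496, 14096384]

/-- The combination of the generators in `L` prescribed by the binary digits of `m`. -/
def encL : List ℕ → ℕ → ℕ
  | [], _ => 0
  | g :: L, m => ((m &&& 1) * g) ^^^ encL L (m >>> 1)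

/-- The codeword with message `m < 4096`. -/
def enc (m : ℕ) : ℕ := encL gens m

/-- Number of ones among the first `n` binary digits of `x`. -/
def popc (x : ℕ) : ℕ → ℕ
  | 0 => 0
  | n + 1 => popc x n + (x.testBit n).toNat

/-- Number of `i < n` with `f i`. -/
def countBelow (f : ℕ → Bool) : ℕ → ℕ
  | 0 => 0
  | n + 1 => countBelow f n + (f n).toNat

theorem count_octads : countBelow (fun m => Nat.beq (popc (enc m) 24) 8) 4096 = 759 := by
  decide +kernel

theorem count_small : countBelow (fun m => Nat.ble 8 (popc (enc m) 24) || Nat.beq m 0) 4096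
    = 4096 := by
  decide +kernel

theorem countBelow_eq (f : ℕ → Bool) (n : ℕ) :
    countBelow f n = ((Finset.range n).filter (fun i => f i = true)).card := by
  induction n with
  | zero => rfl
  | succ n ih =>
    rw [countBelow, ih, Finset.range_add_one, Finset.filter_insert]
    by_cases h : f n = true
    · rw [if_pos h, Finset.card_insert_of_notMem (by simp), h]
      rfl
    · rw [if_neg h]
      simp only [Bool.not_eq_true] at h
      rw [h]
      rfl

theorem countBelow_full {f : ℕ → Bool} {n : ℕ} (h : countBelow f n = n) : ∀ i < n, f i = true := by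
  rw [countBelow_eq] at h
  have h2 : (Finset.range n).filter (fun i => f i = true) = Finset.range n :=
    Finset.eq_of_subset_of_card_le (Finset.filter_subset _ _) (by rw [h]; simp)
  intro i hi
  have : i ∈ (Finset.range n).filter (fun i => f i = true) := by rw [h2]; simpa using hi
  exact (Finset.mem_filter.1 this).2

theorem and_one_mul_xor (a b g : ℕ) :
    ((a ^^^ b) &&& 1) * g = ((a &&& 1) * g) ^^^ ((b &&& 1) * g) := by
  rw [Nat.and_xor_distrib_right]
  have ha : a &&& 1 = 0 ∨ a &&& 1 = 1 := by
    rw [Nat.and_one_is_mod]; omega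
  have hb : b &&& 1 = 0 ∨ b &&& 1 = 1 := by
    rw [Nat.and_one_is_mod]; omega
  rcases ha with ha | ha <;> rcases hb with hb | hb <;> rw [ha, hb] <;> simp

theorem encL_xor (L : List ℕ) : ∀ a b, encL L (a ^^^ b) = encL L a ^^^ encL L b := by
  induction L with
  | nil => intro a b; simp [encL]
  | cons g L ih =>
    intro a b
    rw [encL, encL, encL, Nat.shiftRight_xor_distrib, ih, and_one_mul_xor]
    rw [Nat.xor_assoc, Nat.xor_assoc]
    congr 1
    rw [← Nat.xor_assoc, ← Nat.xor_assoc, Nat.xor_comm (encL L (a >>> 1))]

/-- The set of positions of ones of `x`. -/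
def blk (x : ℕ) : Finset (Fin 24) := Finset.univ.filter (fun i => x.testBit i = true)

theorem popc_eq (x n : ℕ) : popc x n = ∑ i ∈ Finset.range n, (x.testBit i).toNat := by
  induction n with
  | zero => rfl
  | succ n ih => rw [popc, ih, Finset.sum_range_succ]

theorem card_blk (x : ℕ) : (blk x).card = popc x 24 := by
  rw [popc_eq, blk, Finset.card_filter, Finset.sum_range]
  apply Finset.sum_congr rfl
  intro i _
  by_cases h : x.testBit i = true
  · rw [if_pos h, h]; rfl
  · rw [if_neg h]
    simp only [Bool.not_eq_true] at h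
    rw [h]; rfl

theorem blk_xor (x y : ℕ) : blk (x ^^^ y) = symmDiff (blk x) (blk y) := by
  ext i
  simp only [blk, Finset.mem_filter, Finset.mem_univ, true_and, Nat.testBit_xor,
    Finset.mem_symmDiff]
  cases x.testBit i <;> cases y.testBit i <;> simp

theorem card_symmDiff_add (X Y : Finset (Fin 24)) :
    (symmDiff X Y).card + 2 * (X ∩ Y).card = X.card + Y.card := by
  classical
  have h1 : (symmDiff X Y) = (X \ Y) ∪ (Y \ X) := rfl
  have h2 : Disjoint (X \ Y) (Y \ X) := by
    rw [Finset.disjoint_left]
    intro i hi hj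
    exact (Finset.mem_sdiff.1 hi).2 (Finset.mem_sdiff.1 hj).1
  rw [h1, Finset.card_union_of_disjoint h2]
  have h3 := Finset.card_sdiff_add_card_inter X Y
  have h4 := Finset.card_sdiff_add_card_inter Y X
  rw [Finset.inter_comm Y X] at h4
  omega

/-- The messages of the octads. -/
def octIdx : Finset ℕ := (Finset.range 4096).filter (fun m => popc (enc m) 24 = 8)

theorem card_filter_beq (f : ℕ → ℕ) (k n : ℕ) :
    ((Finset.range n).filter (fun m => f m = k)).card
      = countBelow (fun m => Nat.beq (f m) k) n := by
  rw [countBelow_eq]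
  congr 1
  apply Finset.filter_congr
  intro m _
  simp

theorem card_octIdx : octIdx.card = 759 :=
  (card_filter_beq (fun m => popc (enc m) 24) 8 4096).trans count_octads

theorem min_weight {m : ℕ} (hm : m < 4096) (h0 : m ≠ 0) : 8 ≤ popc (enc m) 24 := by
  have h := countBelow_full count_small m hm
  simp only [Bool.or_eq_true] at h
  rcases h with h | h
  · exact Nat.le_of_ble_eq_true h
  · exact absurd (Nat.eq_of_beq_eq_true h) h0

theorem inter_small {m m' : ℕ} (hm : m ∈ octIdx) (hm' : m' ∈ octIdx) (hne : m ≠ m') :
    (blk (enc m) ∩ blk (enc m')).card ≤ 4 := by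
  simp only [octIdx, Finset.mem_filter, Finset.mem_range] at hm hm'
  have h1 := card_symmDiff_add (blk (enc m)) (blk (enc m'))
  rw [← blk_xor, card_blk, card_blk, card_blk, hm.2, hm'.2] at h1
  have h2 : enc m ^^^ enc m' = enc (m ^^^ m') := (encL_xor gens m m').symm
  rw [h2] at h1
  have h3 : m ^^^ m' < 4096 := by
    have := Nat.xor_lt_two_pow (n := 12) (x := m) (y := m') (by simpa using hm.1)
      (by simpa using hm'.1)
    simpa using this
  have h4 : m ^^^ m' ≠ 0 := by
    intro h
    exact hne (Nat.xor_eq_zero_iff.1 h)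
  have h5 := min_weight h3 h4
  omega

/-- General counting lemma: an indexed family of 8-sets with pairwise intersections at most 4
and the right size is a Steiner system. -/
theorem isSteiner_of_count (I : Finset ℕ) (f : ℕ → Finset (Fin 24))
    (hcard8 : ∀ m ∈ I, (f m).card = 8)
    (hint : ∀ m ∈ I, ∀ m' ∈ I, m ≠ m' → (f m ∩ f m').card ≤ 4)
    (hI : I.card = 759) : IsSteiner 8 5 (I.image f) := by
  classical
  refine ⟨?_, ?_⟩
  · intro b hb
    obtain ⟨m, hm, rfl⟩ := Finset.mem_image.1 hb
    exact hcard8 m hm
  · have hdisj : ∀ m ∈ I, ∀ m' ∈ I, m ≠ m' →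
        Disjoint ((f m).powersetCard 5) ((f m').powersetCard 5) := by
      intro m hm m' hm' hne
      rw [Finset.disjoint_left]
      intro T hT hT'
      rw [Finset.mem_powersetCard] at hT hT'
      have h1 := Finset.card_le_card (Finset.subset_inter hT.1 hT'.1)
      have h2 := hint m hm m' hm' hne
      omega
    have hcardU : (I.biUnion (fun m => (f m).powersetCard 5)).card = 42504 := by
      rw [Finset.card_biUnion hdisj]
      have : ∀ m ∈ I, ((f m).powersetCard 5).card = 56 := by
        intro m hm
        rw [Finset.card_powersetCard, hcard8 m hm]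
        rfl
      rw [Finset.sum_congr rfl this, Finset.sum_const, hI]
      rfl
    have hall : I.biUnion (fun m => (f m).powersetCard 5)
        = (Finset.univ : Finset (Fin 24)).powersetCard 5 := by
      apply Finset.eq_of_subset_of_card_le
      · intro T hT
        obtain ⟨m, -, hm⟩ := Finset.mem_biUnion.1 hT
        rw [Finset.mem_powersetCard] at hm ⊢
        exact ⟨Finset.subset_univ _, hm.2⟩
      · rw [hcardU, Finset.card_powersetCard]
        simp only [Finset.card_univ, Fintype.card_fin]
        decide
    intro T hT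
    have hmem : T ∈ I.biUnion (fun m => (f m).powersetCard 5) := by
      rw [hall, Finset.mem_powersetCard]
      exact ⟨Finset.subset_univ _, hT⟩
    obtain ⟨m, hm, hTm⟩ := Finset.mem_biUnion.1 hmem
    rw [Finset.mem_powersetCard] at hTm
    refine ⟨f m, ⟨Finset.mem_image.2 ⟨m, hm, rfl⟩, hTm.1⟩, ?_⟩
    rintro b ⟨hb, hTb⟩
    obtain ⟨m', hm', rfl⟩ := Finset.mem_image.1 hb
    by_contra hne
    have hne' : m ≠ m' := by rintro rfl; exact hne rfl
    have h1 := Finset.card_le_card (Finset.subset_inter hTm.1 hTb)
    have h2 := hint m hm m' hm' hne'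
    omega

theorem card_blk_octIdx : ∀ m ∈ octIdx, (blk (enc m)).card = 8 := by
  intro m hm
  rw [card_blk]
  exact (Finset.mem_filter.1 hm).2

/-- The octads of the extended binary Golay code form a Steiner system `S(24,8,5)`. -/
theorem witt_isSteiner : IsSteiner 8 5 (octIdx.image (fun m => blk (enc m))) :=
  isSteiner_of_count octIdx (fun m => blk (enc m)) card_blk_octIdx
    (fun _ hm _ hm' hne => inter_small hm hm' hne) card_octIdx

end Pool.Agent.SteinerTits
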